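import Pool.Agent.Y183.PR.X
set_option autoImplicit false

/-! Multiples of smooth and of analytic functions. -/

namespace Pool.Agent.Y183.PS

open MeasureTheory Set Filter Topology Complex
open scoped ENNReal NNReal
open Pool.Agent.Y183.PR (phF phF_mul der_mul der_bd size_smooth size_an)

/-- multiples of analytic functions -/
lemma ana_of_ck {n : ℕ} (m : ℕ) (σ : Fin n → Fin n) (A : ℝ≥0∞) (T : ((Fin n → ℝ) → ℝ) → ℝ≥0∞)
    (hT : ∀ (k : ℕ) (M : ℝ) (ψ : Fin n → ℝ × ℝ → ℝ), 0 ≤ M → (∀ i, ContDiff ℝ (k + 1 : ℕ) (ψ i)) →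
      (∀ i, ∀ x : ℝ × ℝ, |x.1| ≤ m + 3 → |x.2| ≤ m + 3 → ‖iteratedFDeriv ℝ (k + 1) (ψ i) x‖ ≤ M) →
      T (phF σ ψ) ≤ A * ENNReal.ofReal ((1 + k : ℝ) ^ 5 *
        (1 + (M / k.factorial) ^ (1 / ((k : ℝ) + 1))) ^ (m + 2)))
    (a R : ℝ) (ψ : Fin n → ℝ × ℝ → ℝ) (ha : 1 ≤ a) (hR : 0 ≤ R)
    (hψ : ∀ i, ContDiff ℝ (⊤ : ℕ∞) (ψ i))
    (hb : ∀ i, ∀ k : ℕ, ∀ x : ℝ × ℝ, |x.1| ≤ m + 3 → |x.2| ≤ m + 3 →
      ‖iteratedFDeriv ℝ k (ψ i) x‖ ≤ a * R ^ k * k.factorial) (l : ℝ) (hl : 1 ≤ l) :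
    T (fun x => l * phF σ ψ x) ≤
      6 ^ (m + 2) * A * ENNReal.ofReal ((a * (1 + R)) ^ (m + 2) * (2 + Real.log l) ^ 5) := by
  have hl0 : 0 ≤ l := by linarith
  have hlog : 0 ≤ Real.log l := Real.log_nonneg hl
  set k : ℕ := ⌈Real.log l⌉₊ with hk
  have hk1 : Real.log l ≤ k := Nat.le_ceil _
  have hk2 : (k : ℝ) < Real.log l + 1 := Nat.ceil_lt_add_one hlog
  have ha0 : 0 ≤ a := by linarith
  have h := hT k (l * (a * R ^ (k + 1) * (k + 1).factorial)) (fun i x => l * ψ i x) (by positivity)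
    (fun i => by
    have h1 : ContDiff ℝ ((k + 1 : ℕ) : WithTop ℕ∞) (ψ i) := (hψ i).of_le (by exact_mod_cast le_top)
    exact contDiff_const.mul h1) (fun i x hx1 hx2 => by
    have h1 : ContDiff ℝ ((k + 1 : ℕ) : WithTop ℕ∞) (ψ i) := (hψ i).of_le (by exact_mod_cast le_top)
    rw [der_mul hl0 h1]
    exact mul_le_mul_of_nonneg_left (hb i (k + 1) x hx1 hx2) hl0)
  have e : phF σ (fun i x => l * ψ i x) = fun x => l * phF σ ψ x := by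
    funext x
    exact phF_mul σ ψ l x
  rw [e] at h
  refine h.trans ?_
  have h2 := size_an m k a R l ha hR hl hk1
  have h6 : (6 : ℝ≥0∞) ^ (m + 2) = ENNReal.ofReal (6 ^ (m + 2)) := by
    rw [ENNReal.ofReal_pow (by norm_num)]
    norm_num
  rw [h6, mul_comm (ENNReal.ofReal (6 ^ (m + 2))) A, mul_assoc A,
    ← ENNReal.ofReal_mul (by positivity)]
  apply mul_le_mul' le_rfl
  apply ENNReal.ofReal_le_ofReal
  have h3 : (1 + (k : ℝ)) ^ 5 ≤ (2 + Real.log l) ^ 5 := by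
    apply pow_le_pow_left₀ (by positivity)
    linarith
  calc _ ≤ (2 + Real.log l) ^ 5 * (6 ^ (m + 2) * (a * (1 + R)) ^ (m + 2)) := by gcongr
    _ = _ := by ring

/-- multiples of smooth functions -/
lemma eps_of_ck {n : ℕ} (m : ℕ) (σ : Fin n → Fin n) (ψ : Fin n → ℝ × ℝ → ℝ)
    (hψ : ∀ i, ContDiff ℝ (⊤ : ℕ∞) (ψ i)) (ε : ℝ) (hε : 0 < ε) : ∃ c : ℝ≥0,
    ∀ (A : ℝ≥0∞) (T : ((Fin n → ℝ) → ℝ) → ℝ≥0∞),
    (∀ (k : ℕ) (M : ℝ) (ψ : Fin n → ℝ × ℝ → ℝ), 0 ≤ M → (∀ i, ContDiff ℝ (k + 1 : ℕ) (ψ i)) →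
      (∀ i, ∀ x : ℝ × ℝ, |x.1| ≤ m + 3 → |x.2| ≤ m + 3 → ‖iteratedFDeriv ℝ (k + 1) (ψ i) x‖ ≤ M) →
      T (phF σ ψ) ≤ A * ENNReal.ofReal ((1 + k : ℝ) ^ 5 *
        (1 + (M / k.factorial) ^ (1 / ((k : ℝ) + 1))) ^ (m + 2))) →
    ∀ l : ℝ, 1 ≤ l → T (fun x => l * phF σ ψ x) ≤ c * A * ENNReal.ofReal (l ^ ε) := by
  obtain ⟨k, hk⟩ := exists_nat_gt (((m : ℝ) + 2) / ε)
  have hk1 : ((m : ℝ) + 2) / ((k : ℝ) + 1) ≤ ε := by
    rw [div_lt_iff₀ hε] at hk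
    rw [div_le_iff₀ (by positivity)]
    nlinarith
  obtain ⟨M, hM, hMb⟩ := der_bd ψ hψ (k + 1) (m + 3)
  set c : ℝ := (1 + k : ℝ) ^ 5 * (1 + (M / k.factorial) ^ (1 / ((k : ℝ) + 1))) ^ (m + 2) with hc
  have hc0 : 0 ≤ c := by positivity
  refine ⟨c.toNNReal, ?_⟩
  intro A T hT l hl
  have hl0 : 0 ≤ l := by linarith
  have h := hT k (l * M) (fun i x => l * ψ i x) (by positivity) (fun i => by
    have h1 : ContDiff ℝ ((k + 1 : ℕ) : WithTop ℕ∞) (ψ i) := (hψ i).of_le (by exact_mod_cast le_top)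
    exact contDiff_const.mul h1) (fun i x hx1 hx2 => by
    have h1 : ContDiff ℝ ((k + 1 : ℕ) : WithTop ℕ∞) (ψ i) := (hψ i).of_le (by exact_mod_cast le_top)
    rw [der_mul hl0 h1]
    exact mul_le_mul_of_nonneg_left (hMb i x hx1 hx2) hl0)
  have e : phF σ (fun i x => l * ψ i x) = fun x => l * phF σ ψ x := by
    funext x
    exact phF_mul σ ψ l x
  rw [e] at h
  refine h.trans ?_
  have h2 := size_smooth m k M l ε hM hl hk1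
  have e2 : (c.toNNReal : ℝ≥0∞) = ENNReal.ofReal c := rfl
  rw [e2, mul_comm (ENNReal.ofReal c) A, mul_assoc, ← ENNReal.ofReal_mul hc0]
  apply mul_le_mul' le_rfl
  apply ENNReal.ofReal_le_ofReal
  have h3 : (0 : ℝ) ≤ (1 + k : ℝ) ^ 5 := by positivity
  calc _ ≤ (1 + k : ℝ) ^ 5 * (l ^ ε * (1 + (M / k.factorial) ^ (1 / ((k : ℝ) + 1))) ^ (m + 2)) := by
        gcongr
    _ = _ := by
        rw [hc]
        ring

end Pool.Agent.Y183.PS
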