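import Pool.Agent.Y183.PS.Y
set_option autoImplicit false

/-! Bounded functions of bounded variation belong to the two classes of amplitudes. -/

namespace Pool.Agent.Y183.PS

open MeasureTheory Set Filter Topology Complex Matrix
open scoped ENNReal NNReal
open Pool.Agent.Y183.LS (BA BA1_vol)
open Pool.Agent.Y183.PR (V_bound)
open Pool.Agent.W771.MD (cons_meas)
open Pool.Agent.Y247.QT (lint_cons' cons_add lint_mat mulVec_cont)

variable {m : ℕ}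

/-- the mixed norm of a function of bounded support -/
lemma mixS (p : ℝ) (hp : 2 ≤ p) (H : (Fin (m + 1) → ℝ) → ℂ) (hH : Measurable H)
    (S : Set (Fin m → ℝ)) (hS : MeasurableSet S) (c : ℝ≥0∞) (hc : 1 ≤ c) (hSv : volume S ≤ c)
    (hz : ∀ u v, v ∉ S → H (Fin.cons u v) = 0) (A : ℝ≥0∞) (hA : ∫⁻ ζ, ‖H ζ‖ₑ ^ p ≤ A ^ p) :
    ∫⁻ v : Fin m → ℝ, (∫⁻ u : ℝ, ‖H (Fin.cons u v)‖ₑ ^ p) ^ (2 / p) ≤ (c * A) ^ 2 := by
  have hp0 : 0 < p := by linarith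
  set G : (Fin m → ℝ) → ℝ≥0∞ := fun v => ∫⁻ u : ℝ, ‖H (Fin.cons u v)‖ₑ ^ p with hG
  have hHp : Measurable (fun ζ => ‖H ζ‖ₑ ^ p) := hH.enorm.pow_const p
  have hGm : Measurable G := by
    have h1 : Measurable (fun w : (Fin m → ℝ) × ℝ => ‖H (Fin.cons w.2 w.1)‖ₑ ^ p) :=
      hHp.comp (cons_meas.comp measurable_swap)
    exact Measurable.lintegral_prod_right' h1
  have hG0 : ∀ v, v ∉ S → G v = 0 := by
    intro v hv
    simp only [hG, hz _ v hv, enorm_zero, ENNReal.zero_rpow_of_pos hp0, lintegral_zero]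
  have hGA : ∫⁻ v, G v ≤ A ^ p := by
    refine le_trans ?_ hA
    rw [← lint_cons' _ hHp, lintegral_lintegral_swap]
    exact (hHp.comp (cons_meas.comp measurable_swap)).aemeasurable
  have h1 : ∫⁻ v, G v ^ (2 / p) = ∫⁻ v in S, G v ^ (2 / p) := by
    rw [← lintegral_indicator hS]
    apply lintegral_congr
    intro v
    by_cases h : v ∈ S
    · rw [indicator_of_mem h]
    · rw [indicator_of_notMem h, hG0 v h, ENNReal.zero_rpow_of_pos (by positivity)]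
  show ∫⁻ v, G v ^ (2 / p) ≤ _
  rw [h1]
  have h2 := Pool.Agent.W771.MD.jens (volume.restrict S) (fun v => G v ^ (2 / p))
    (hGm.pow_const _) (p / 2) (by linarith)
  have h3 : ∀ v, (G v ^ (2 / p)) ^ (p / 2) = G v := by
    intro v
    rw [← ENNReal.rpow_mul]
    have : 2 / p * (p / 2) = 1 := by field_simp
    rw [this, ENNReal.rpow_one]
  simp only [h3] at h2
  rw [Measure.restrict_apply_univ] at h2
  have h4 : (∫⁻ v in S, G v ^ (2 / p)) ^ (p / 2) ≤ ((c * A) ^ 2) ^ (p / 2) := by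
    refine h2.trans ?_
    calc volume S ^ (p / 2 - 1) * ∫⁻ v in S, G v ≤ c ^ p * A ^ p := by
          refine mul_le_mul' ?_ ((setLIntegral_le_lintegral _ _).trans hGA)
          calc volume S ^ (p / 2 - 1) ≤ c ^ (p / 2 - 1) :=
                ENNReal.rpow_le_rpow hSv (by linarith)
            _ ≤ _ := ENNReal.rpow_le_rpow_of_exponent_le hc (by linarith)
      _ = _ := by
          rw [← ENNReal.mul_rpow_of_nonneg _ _ hp0.le, ← ENNReal.rpow_natCast (_ * _) 2,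
            ← ENNReal.rpow_mul]
          congr 1
          push_cast
          ring
  have h5 := ENNReal.rpow_le_rpow h4 (by positivity : (0 : ℝ) ≤ 2 / p)
  rw [← ENNReal.rpow_mul, ← ENNReal.rpow_mul] at h5
  have : p / 2 * (2 / p) = 1 := by field_simp
  rwa [this, ENNReal.rpow_one, ENNReal.rpow_one] at h5

/-- the powers of bounded functions of bounded variation -/
lemma bv_pow {n : ℕ} (p : ℝ) (hp : 1 ≤ p) (g : (Fin n → ℝ) → ℂ)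
    (hz : ∀ ξ, ξ ∉ BA 1 n → g ξ = 0) (hbd : ∀ ξ, ‖g ξ‖ ≤ 1) :
    ∫⁻ ξ, ‖g ξ‖ₑ ^ p ≤ 2 ^ n ∧ ∀ h : Fin n → ℝ, ∫⁻ ξ, ‖g (ξ + h) - g ξ‖ₑ ^ p ≤
      2 ^ p * ∫⁻ ξ, ‖g (ξ + h) - g ξ‖ₑ := by
  have hp0 : 0 ≤ p := by linarith
  have hbe : ∀ ξ, ‖g ξ‖ₑ ≤ 1 := by
    intro ξ
    rw [← ofReal_norm, ← ENNReal.ofReal_one]
    exact ENNReal.ofReal_le_ofReal (hbd ξ)
  have hcm : MeasurableSet (BA 1 n) := measurableSet_Icc
  have hcv : volume (BA 1 n) = 2 ^ n := BA1_vol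
  constructor
  · calc ∫⁻ ξ, ‖g ξ‖ₑ ^ p ≤ ∫⁻ ξ, (BA 1 n).indicator (fun _ => (1 : ℝ≥0∞)) ξ := by
          apply lintegral_mono
          intro ξ
          simp only
          by_cases h : ξ ∈ BA 1 n
          · rw [indicator_of_mem h]
            exact ENNReal.rpow_le_one (hbe ξ) hp0
          · rw [indicator_of_notMem h, hz ξ h, enorm_zero, ENNReal.zero_rpow_of_pos (by linarith)]
      _ = 2 ^ n := by
          rw [lintegral_indicator hcm, lintegral_const, Measure.restrict_apply_univ, one_mul, hcv]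
  · intro h
    have h2 : ∀ ξ, ‖g (ξ + h) - g ξ‖ₑ ^ p ≤ (2 : ℝ≥0∞) ^ (p - 1) * ‖g (ξ + h) - g ξ‖ₑ := by
      intro ξ
      have h3 : ‖g (ξ + h) - g ξ‖ₑ ≤ 2 := by
        refine (enorm_sub_le).trans ?_
        calc ‖g (ξ + h)‖ₑ + ‖g ξ‖ₑ ≤ 1 + 1 := add_le_add (hbe _) (hbe _)
          _ = 2 := by norm_num
      calc ‖g (ξ + h) - g ξ‖ₑ ^ p = ‖g (ξ + h) - g ξ‖ₑ ^ ((p - 1) + 1) := by
            congr 1
            ring
        _ = ‖g (ξ + h) - g ξ‖ₑ ^ (p - 1) * ‖g (ξ + h) - g ξ‖ₑ := by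
            rw [ENNReal.rpow_add_of_nonneg _ _ (by linarith) zero_le_one, ENNReal.rpow_one]
        _ ≤ _ := by
            gcongr
    have h2t : (2 : ℝ≥0∞) ^ (p - 1) ≠ ∞ :=
      ENNReal.rpow_ne_top_of_nonneg (by linarith) (by norm_num)
    calc ∫⁻ ξ, ‖g (ξ + h) - g ξ‖ₑ ^ p ≤ ∫⁻ ξ, (2 : ℝ≥0∞) ^ (p - 1) * ‖g (ξ + h) - g ξ‖ₑ :=
          lintegral_mono h2
      _ = (2 : ℝ≥0∞) ^ (p - 1) * ∫⁻ ξ, ‖g (ξ + h) - g ξ‖ₑ := lintegral_const_mul' _ _ h2t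
      _ ≤ _ := by
          refine mul_le_mul' ?_ le_rfl
          exact ENNReal.rpow_le_rpow_of_exponent_le (by norm_num) (by linarith)

/-- bounded functions of bounded variation, in `L^2` -/
lemma bv_amp {n : ℕ} (s : ℝ) (hs0 : 0 ≤ s) (hs : s ≤ 1 / 2) (g : (Fin n → ℝ) → ℂ)
    (hg : Measurable g) (hz : ∀ ξ, ξ ∉ BA 1 n → g ξ = 0) (hbd : ∀ ξ, ‖g ξ‖ ≤ 1) (W : ℝ≥0)
    (hW : 1 ≤ W) (hM : ∀ h : Fin n → ℝ, ∫⁻ ξ, ‖g (ξ + h) - g ξ‖ₑ ≤ W * ENNReal.ofReal ‖h‖) :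
    ∫⁻ ξ, ‖g ξ‖ₑ ^ 2 ≤ (2 ^ (n + 2) * (W : ℝ≥0∞) ^ s) ^ 2 ∧ ∀ h : Fin n → ℝ,
      ∫⁻ ξ, ‖g (ξ + h) - g ξ‖ₑ ^ 2 ≤
        (2 ^ (n + 2) * (W : ℝ≥0∞) ^ s * ENNReal.ofReal (‖h‖ ^ s)) ^ 2 := by
  obtain ⟨h1, h2⟩ := bv_pow 2 (by norm_num) g hz hbd
  simp only [ENNReal.rpow_ofNat] at h1 h2
  have hWe : (1 : ℝ≥0∞) ≤ W := by exact_mod_cast hW
  have hWs : (1 : ℝ≥0∞) ≤ (W : ℝ≥0∞) ^ s := by
    calc (1 : ℝ≥0∞) = 1 ^ s := (ENNReal.one_rpow s).symm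
      _ ≤ _ := ENNReal.rpow_le_rpow hWe hs0
  have h2n : (1 : ℝ≥0∞) ≤ 2 ^ (n + 2) := one_le_pow₀ (by norm_num)
  have h3 : ∫⁻ ξ, ‖g ξ‖ₑ ^ 2 ≤ (2 ^ (n + 2) * (W : ℝ≥0∞) ^ s) ^ 2 := by
    calc ∫⁻ ξ, ‖g ξ‖ₑ ^ 2 ≤ 2 ^ n := h1
      _ ≤ 2 ^ (n + 2) := pow_le_pow_right₀ (by norm_num) (by omega)
      _ = 2 ^ (n + 2) * 1 := (mul_one _).symm
      _ ≤ 2 ^ (n + 2) * (W : ℝ≥0∞) ^ s := mul_le_mul' le_rfl hWs
      _ = (2 ^ (n + 2) * (W : ℝ≥0∞) ^ s) ^ 1 := (pow_one _).symm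
      _ ≤ _ := pow_le_pow_right₀ (one_le_mul h2n hWs) (by norm_num)
  refine ⟨h3, ?_⟩
  intro h
  set x : ℝ := (W : ℝ) * ‖h‖ with hx
  have hx0 : 0 ≤ x := by positivity
  have e1 : (W : ℝ≥0∞) ^ s * ENNReal.ofReal (‖h‖ ^ s) = ENNReal.ofReal (x ^ s) := by
    have e0 : (W : ℝ≥0∞) ^ s = ENNReal.ofReal ((W : ℝ) ^ s) := by
      rw [← ENNReal.ofReal_rpow_of_nonneg (NNReal.coe_nonneg W) hs0, ENNReal.ofReal_coe_nnreal]
    rw [hx, Real.mul_rpow (by positivity) (norm_nonneg _), ENNReal.ofReal_mul (by positivity), e0]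
  have e2 : (ENNReal.ofReal (x ^ s)) ^ 2 = ENNReal.ofReal (x ^ (2 * s)) := by
    rw [← ENNReal.ofReal_pow (by positivity), ← Real.rpow_natCast (x ^ s) 2, ← Real.rpow_mul hx0]
    congr 2
    push_cast
    ring
  rw [mul_assoc, e1, mul_pow, e2]
  have h24 : (2 : ℝ≥0∞) ^ 2 = 4 := by norm_num
  rcases le_total x 1 with hx1 | hx1
  · calc ∫⁻ ξ, ‖g (ξ + h) - g ξ‖ₑ ^ 2 ≤ 2 ^ 2 * (W * ENNReal.ofReal ‖h‖) :=
          (h2 h).trans (mul_le_mul' le_rfl (hM h))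
      _ = 2 ^ 2 * ENNReal.ofReal x := by
          rw [hx, ENNReal.ofReal_mul (by positivity), ENNReal.ofReal_coe_nnreal]
      _ ≤ (2 ^ (n + 2)) ^ 2 * ENNReal.ofReal (x ^ (2 * s)) := by
          apply mul_le_mul'
          · rw [← pow_mul]
            exact pow_le_pow_right₀ (by norm_num) (by omega)
          · apply ENNReal.ofReal_le_ofReal
            rcases eq_or_lt_of_le hx0 with h0 | h0
            · rw [← h0]; positivity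
            · calc x = x ^ (1 : ℝ) := (Real.rpow_one x).symm
                _ ≤ _ := Real.rpow_le_rpow_of_exponent_ge h0 hx1 (by linarith)
  · have h5 : ∫⁻ ξ, ‖g (ξ + h)‖ₑ ^ 2 = ∫⁻ ξ, ‖g ξ‖ₑ ^ 2 :=
      lintegral_add_right_eq_self (fun ξ => ‖g ξ‖ₑ ^ 2) h
    have hpt : ∀ ξ, ‖g (ξ + h) - g ξ‖ₑ ^ 2 ≤ 2 * ‖g (ξ + h)‖ₑ ^ 2 + 2 * ‖g ξ‖ₑ ^ 2 := by
      intro ξ
      have h6 : ‖g (ξ + h) - g ξ‖ₑ ≤ ‖g (ξ + h)‖ₑ + ‖g ξ‖ₑ := enorm_sub_le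
      calc _ ≤ (‖g (ξ + h)‖ₑ + ‖g ξ‖ₑ) ^ 2 := pow_le_pow_left' h6 2
        _ ≤ _ := by
            have h8 : (‖g (ξ + h)‖ₑ + ‖g ξ‖ₑ) ^ 2 ≤ 2 * (‖g (ξ + h)‖ₑ ^ 2 + ‖g ξ‖ₑ ^ 2) := by
              have h9 := ENNReal.rpow_add_le_mul_rpow_add_rpow (‖g (ξ + h)‖ₑ) (‖g ξ‖ₑ)
                (p := 2) (by norm_num)
              simp only [ENNReal.rpow_ofNat] at h9
              refine h9.trans (le_of_eq ?_)
              norm_num
            rw [mul_add] at h8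
            exact h8
    have hgm : Measurable fun ξ => 2 * ‖g (ξ + h)‖ₑ ^ 2 :=
      ((hg.comp (measurable_id.add_const h)).enorm.pow_const 2).const_mul 2
    calc ∫⁻ ξ, ‖g (ξ + h) - g ξ‖ₑ ^ 2 ≤ ∫⁻ ξ, (2 * ‖g (ξ + h)‖ₑ ^ 2 + 2 * ‖g ξ‖ₑ ^ 2) :=
          lintegral_mono hpt
      _ = 2 * (∫⁻ ξ, ‖g (ξ + h)‖ₑ ^ 2) + 2 * ∫⁻ ξ, ‖g ξ‖ₑ ^ 2 := by
          rw [lintegral_add_left hgm, lintegral_const_mul' _ _ (by norm_num),
            lintegral_const_mul' _ _ (by norm_num)]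
      _ ≤ 2 * 2 ^ n + 2 * 2 ^ n := by
          rw [h5]
          gcongr
      _ = 2 ^ (n + 2) * 1 := by ring
      _ ≤ (2 ^ (n + 2)) ^ 2 * ENNReal.ofReal (x ^ (2 * s)) := by
          apply mul_le_mul'
          · rw [← pow_mul]
            exact pow_le_pow_right₀ (by norm_num) (by omega)
          · rw [← ENNReal.ofReal_one]
            exact ENNReal.ofReal_le_ofReal (Real.one_le_rpow hx1 (by linarith))

/-- the constant -/
noncomputable def cbv (m : ℕ) : ℝ≥0∞ :=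
  (2 * (m + 1)) ^ (m + 1) * (2 ^ (m + 1) * (m + 1))

/-- **products of a bounded function of one coordinate and a bounded function of bounded
variation** -/
lemma bv_rough (p : ℝ) (hp : 2 ≤ p) (V : Matrix (Fin (m + 1)) (Fin (m + 1)) ℝ) (hV : Vᵀ * V = 1)
    (b : ℝ → ℂ) (hb : Measurable b) (hb1 : ∀ u, ‖b u‖ ≤ 1) (g : (Fin (m + 1) → ℝ) → ℂ)
    (hg : Measurable g) (hz : ∀ ξ, ξ ∉ BA 1 (m + 1) → g ξ = 0) (hbd : ∀ ξ, ‖g ξ‖ ≤ 1) (W : ℝ≥0)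
    (hW : 1 ≤ W)
    (hM : ∀ h : Fin (m + 1) → ℝ, ∫⁻ ξ, ‖g (ξ + h) - g ξ‖ₑ ≤ W * ENNReal.ofReal ‖h‖) :
    Measurable (fun x => g (Vᵀ *ᵥ x) * b (x 0)) ∧
    (∀ ξ, g (Vᵀ *ᵥ (V *ᵥ ξ)) * b ((V *ᵥ ξ) 0) = g ξ * b ((V *ᵥ ξ) 0)) ∧
    ∫⁻ v : Fin m → ℝ, (∫⁻ u : ℝ, ‖g (Vᵀ *ᵥ (Fin.cons u v : Fin (m + 1) → ℝ)) *
      b ((Fin.cons u v : Fin (m + 1) → ℝ) 0)‖ₑ ^ p) ^ (2 / p) ≤
        (cbv m * (W : ℝ≥0∞) ^ (1 / p)) ^ 2 ∧
    ∀ h : Fin m → ℝ, ∫⁻ v : Fin m → ℝ, (∫⁻ u : ℝ,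
      ‖g (Vᵀ *ᵥ (Fin.cons u (v + h) : Fin (m + 1) → ℝ)) *
        b ((Fin.cons u (v + h) : Fin (m + 1) → ℝ) 0) -
        g (Vᵀ *ᵥ (Fin.cons u v : Fin (m + 1) → ℝ)) *
        b ((Fin.cons u v : Fin (m + 1) → ℝ) 0)‖ₑ ^ p) ^ (2 / p) ≤
        (cbv m * (W : ℝ≥0∞) ^ (1 / p) * ENNReal.ofReal (‖h‖ ^ (1 / p))) ^ 2 := by
  have hp0 : 0 < p := by linarith
  have hm0 : (0 : ℝ) ≤ m := Nat.cast_nonneg m
  have hVV : V * Vᵀ = 1 := mul_eq_one_comm.mp hV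
  have hU : (Vᵀ)ᵀ * Vᵀ = 1 := by rw [transpose_transpose, hVV]
  have hdet : |(Vᵀ).det| = 1 := by
    have h1 : (Vᵀ * V).det = 1 := by rw [hV, det_one]
    rw [det_mul, det_transpose] at h1
    rw [det_transpose]
    have h2 : |V.det| * |V.det| = 1 := by rw [← abs_mul, h1, abs_one]
    nlinarith [abs_nonneg V.det]
  have hdet0 : (Vᵀ).det ≠ 0 := by
    intro h
    rw [h, abs_zero] at hdet
    exact zero_ne_one hdet
  have hrot : ∀ f : (Fin (m + 1) → ℝ) → ℝ≥0∞, Measurable f → ∫⁻ x, f (Vᵀ *ᵥ x) = ∫⁻ ξ, f ξ := by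
    intro f hf
    rw [lint_mat _ hdet0 f hf, abs_inv, hdet, inv_one, ENNReal.ofReal_one, one_mul]
  obtain ⟨h1, h2⟩ := bv_pow p (by linarith) g hz hbd
  have hb1e : ∀ u, ‖b u‖ₑ ≤ 1 := by
    intro u
    rw [← ofReal_norm, ← ENNReal.ofReal_one]
    exact ENNReal.ofReal_le_ofReal (hb1 u)
  set H : (Fin (m + 1) → ℝ) → ℂ := fun x => g (Vᵀ *ᵥ x) * b (x 0) with hH
  have hHm : Measurable H :=
    (hg.comp (mulVec_cont Vᵀ).measurable).mul (hb.comp (measurable_pi_apply 0))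
  set c : ℝ≥0∞ := (2 * (m + 1)) ^ (m + 1) with hc
  have hmone : (1 : ℝ≥0∞) ≤ (m : ℝ≥0∞) + 1 := le_add_self
  have h2m : (1 : ℝ≥0∞) ≤ 2 * (m + 1) := one_le_mul (by norm_num) hmone
  have hc1 : 1 ≤ c := one_le_pow₀ h2m
  set S : Set (Fin m → ℝ) := BA ((m : ℝ) + 1) m with hS
  have hSm : MeasurableSet S := measurableSet_Icc
  have hSv : volume S = (2 * (m + 1)) ^ m := by
    rw [hS, Real.volume_Icc_pi, Finset.prod_const, Finset.card_univ, Fintype.card_fin]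
    congr 1
    have : (m : ℝ) + 1 - -((m : ℝ) + 1) = 2 * (m + 1) := by ring
    rw [this, ENNReal.ofReal_mul (by norm_num), ENNReal.ofReal_add hm0 zero_le_one,
      ENNReal.ofReal_natCast, ENNReal.ofReal_one, ENNReal.ofReal_ofNat]
  have hH0 : ∀ u (v : Fin m → ℝ), v ∉ S → H (Fin.cons u v) = 0 := by
    intro u v hv
    have h3 : g (Vᵀ *ᵥ (Fin.cons u v : Fin (m + 1) → ℝ)) = 0 := by
      apply hz
      intro hin
      apply hv
      set ξ : Fin (m + 1) → ℝ := Vᵀ *ᵥ (Fin.cons u v : Fin (m + 1) → ℝ) with hξ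
      have h4 : V *ᵥ ξ = (Fin.cons u v : Fin (m + 1) → ℝ) := by
        rw [hξ, mulVec_mulVec, hVV, one_mulVec]
      have h5 : ‖ξ‖ ≤ 1 := by
        rw [pi_norm_le_iff_of_nonneg zero_le_one]
        intro j
        rw [Real.norm_eq_abs, abs_le]
        exact ⟨hin.1 j, hin.2 j⟩
      have h6 : ∀ i : Fin m, |v i| ≤ (m : ℝ) + 1 := by
        intro i
        have h7 := V_bound V hV ξ i.succ
        rw [h4] at h7
        simp only [Fin.cons_succ] at h7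
        nlinarith [norm_nonneg ξ]
      exact ⟨fun i => (abs_le.mp (h6 i)).1, fun i => (abs_le.mp (h6 i)).2⟩
    show g (Vᵀ *ᵥ (Fin.cons u v : Fin (m + 1) → ℝ)) * _ = 0
    rw [h3, zero_mul]
  have hWe : (1 : ℝ≥0∞) ≤ W := by exact_mod_cast hW
  have hWp : ((W : ℝ≥0∞) ^ (1 / p)) ^ p = W := by
    rw [← ENNReal.rpow_mul, one_div_mul_cancel hp0.ne', ENNReal.rpow_one]
  have h2m1 : (1 : ℝ≥0∞) ≤ 2 ^ (m + 1) := one_le_pow₀ (by norm_num)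
  refine ⟨hHm, ?_, ?_, ?_⟩
  · intro ξ
    rw [mulVec_mulVec, hV, one_mulVec]
  · have h3 : ∫⁻ ζ, ‖H ζ‖ₑ ^ p ≤ (2 ^ (m + 1) * (m + 1) * (W : ℝ≥0∞) ^ (1 / p)) ^ p := by
      calc ∫⁻ ζ, ‖H ζ‖ₑ ^ p ≤ ∫⁻ x, ‖g (Vᵀ *ᵥ x)‖ₑ ^ p := by
            apply lintegral_mono
            intro x
            apply ENNReal.rpow_le_rpow _ hp0.le
            rw [hH, enorm_mul]
            calc _ ≤ ‖g (Vᵀ *ᵥ x)‖ₑ * 1 := mul_le_mul' le_rfl (hb1e _)
              _ = _ := mul_one _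
        _ = ∫⁻ ξ, ‖g ξ‖ₑ ^ p := hrot (fun ξ => ‖g ξ‖ₑ ^ p) (hg.enorm.pow_const p)
        _ ≤ 2 ^ (m + 1) := h1
        _ = (2 ^ (m + 1)) ^ (1 : ℝ) := (ENNReal.rpow_one _).symm
        _ ≤ (2 ^ (m + 1)) ^ p := ENNReal.rpow_le_rpow_of_exponent_le h2m1 (by linarith)
        _ ≤ (2 ^ (m + 1)) ^ p * ((m + 1) ^ p * W) := by
            calc _ = (2 ^ (m + 1)) ^ p * 1 := (mul_one _).symm
              _ ≤ _ := mul_le_mul' le_rfl (one_le_mul (by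
                calc (1 : ℝ≥0∞) = 1 ^ p := (ENNReal.one_rpow p).symm
                  _ ≤ _ := ENNReal.rpow_le_rpow hmone hp0.le) hWe)
        _ = _ := by
            rw [ENNReal.mul_rpow_of_nonneg _ _ hp0.le, ENNReal.mul_rpow_of_nonneg _ _ hp0.le, hWp]
            ring
    have h4 := mixS p hp H hHm S hSm c hc1 (by
      rw [hSv, hc]
      exact pow_le_pow_right₀ h2m (by omega)) hH0 _ h3
    refine h4.trans (le_of_eq ?_)
    unfold cbv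
    rw [hc]
    ring
  · intro h
    set hh : Fin (m + 1) → ℝ := Fin.cons 0 h with hhd
    have hhn : ‖Vᵀ *ᵥ hh‖ ≤ ((m : ℝ) + 1) * ‖h‖ := by
      rw [pi_norm_le_iff_of_nonneg (by positivity)]
      intro i
      refine (V_bound Vᵀ hU hh i).trans ?_
      apply mul_le_mul_of_nonneg_left _ (by positivity)
      rw [pi_norm_le_iff_of_nonneg (norm_nonneg _)]
      intro j
      refine Fin.cases ?_ (fun j => ?_) j
      · simp [hhd]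
      · simpa [hhd] using norm_le_pi_norm h j
    have e3 : ∀ u (v : Fin m → ℝ), H (Fin.cons u (v + h)) - H (Fin.cons u v) =
        (fun ζ => H (ζ + hh) - H ζ) (Fin.cons u v) := by
      intro u v
      simp only
      rw [cons_add]
    have h3 : ∫⁻ ζ, ‖H (ζ + hh) - H ζ‖ₑ ^ p ≤
        (2 ^ (m + 1) * (m + 1) * (W : ℝ≥0∞) ^ (1 / p) * ENNReal.ofReal (‖h‖ ^ (1 / p))) ^ p := by
      have hdiff : ∀ ζ, H (ζ + hh) - H ζ = (g (Vᵀ *ᵥ ζ + Vᵀ *ᵥ hh) - g (Vᵀ *ᵥ ζ)) * b (ζ 0) := by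
        intro ζ
        simp only [hH]
        have : (ζ + hh) 0 = ζ 0 := by simp [hhd]
        rw [this, mulVec_add]
        ring
      have e5 : ENNReal.ofReal (‖h‖ ^ (1 / p)) ^ p = ENNReal.ofReal ‖h‖ := by
        rw [ENNReal.ofReal_rpow_of_nonneg (by positivity) hp0.le, ← Real.rpow_mul (norm_nonneg _),
          one_div_mul_cancel hp0.ne', Real.rpow_one]
      have e6 : ENNReal.ofReal (((m : ℝ) + 1) * ‖h‖) = ((m : ℝ≥0∞) + 1) * ENNReal.ofReal ‖h‖ := by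
        rw [ENNReal.ofReal_mul (by positivity), ENNReal.ofReal_add hm0 zero_le_one,
          ENNReal.ofReal_natCast, ENNReal.ofReal_one]
      calc ∫⁻ ζ, ‖H (ζ + hh) - H ζ‖ₑ ^ p ≤
          ∫⁻ x, ‖g (Vᵀ *ᵥ x + Vᵀ *ᵥ hh) - g (Vᵀ *ᵥ x)‖ₑ ^ p := by
            apply lintegral_mono
            intro ζ
            apply ENNReal.rpow_le_rpow _ hp0.le
            rw [hdiff, enorm_mul]
            calc _ ≤ ‖g (Vᵀ *ᵥ ζ + Vᵀ *ᵥ hh) - g (Vᵀ *ᵥ ζ)‖ₑ * 1 := mul_le_mul' le_rfl (hb1e _)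
              _ = _ := mul_one _
        _ = ∫⁻ ξ, ‖g (ξ + Vᵀ *ᵥ hh) - g ξ‖ₑ ^ p :=
            hrot (fun ξ => ‖g (ξ + Vᵀ *ᵥ hh) - g ξ‖ₑ ^ p)
              (((hg.comp (measurable_id.add_const _)).sub hg).enorm.pow_const p)
        _ ≤ 2 ^ p * (W * ENNReal.ofReal ‖Vᵀ *ᵥ hh‖) :=
            (h2 _).trans (mul_le_mul' le_rfl (hM _))
        _ ≤ 2 ^ p * (W * (((m : ℝ≥0∞) + 1) * ENNReal.ofReal ‖h‖)) := by
            rw [← e6]
            gcongr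
        _ ≤ (2 ^ (m + 1)) ^ p * (W * (((m : ℝ≥0∞) + 1) ^ p * ENNReal.ofReal ‖h‖)) := by
            apply mul_le_mul'
            · apply ENNReal.rpow_le_rpow _ hp0.le
              calc (2 : ℝ≥0∞) = 2 ^ 1 := (pow_one _).symm
                _ ≤ _ := pow_le_pow_right₀ (by norm_num) (by omega)
            · apply mul_le_mul' le_rfl
              apply mul_le_mul' _ le_rfl
              calc (m : ℝ≥0∞) + 1 = ((m : ℝ≥0∞) + 1) ^ (1 : ℝ) := (ENNReal.rpow_one _).symm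
                _ ≤ _ := ENNReal.rpow_le_rpow_of_exponent_le hmone (by linarith)
        _ = _ := by
            rw [ENNReal.mul_rpow_of_nonneg _ _ hp0.le, ENNReal.mul_rpow_of_nonneg _ _ hp0.le,
              ENNReal.mul_rpow_of_nonneg _ _ hp0.le, hWp, e5]
            ring
    have hSm2 : MeasurableSet (S ∪ {v : Fin m → ℝ | v + h ∈ S}) :=
      hSm.union ((measurable_id.add_const h) hSm)
    have h4 := mixS p hp (fun ζ => H (ζ + hh) - H ζ)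
      ((hHm.comp (measurable_id.add_const _)).sub hHm) (S ∪ {v : Fin m → ℝ | v + h ∈ S}) hSm2 c hc1
      (by
        refine (measure_union_le _ _).trans ?_
        have e4 : volume {v : Fin m → ℝ | v + h ∈ S} = volume S :=
          measure_preimage_add_right volume h S
        rw [e4, hSv, hc, pow_succ, ← two_mul, mul_comm]
        apply mul_le_mul' le_rfl
        calc (2 : ℝ≥0∞) = 2 * 1 := (mul_one _).symm
          _ ≤ _ := mul_le_mul' le_rfl hmone) (by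
        intro u v hv
        simp only [mem_union, mem_ofPred_eq, not_or] at hv
        show H (Fin.cons u v + hh) - H (Fin.cons u v) = 0
        rw [hhd, ← cons_add, hH0 u v hv.1, hH0 u (v + h) hv.2, sub_zero]) _ h3
    simp only [← e3] at h4
    refine h4.trans (le_of_eq ?_)
    unfold cbv
    rw [hc]
    ring

end Pool.Agent.Y183.PS
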