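import Pool.Agent.Y183.PS.Ine

set_option autoImplicit false
set_option linter.all false

/-!
Project PS (helper157), tasks FRO and TAU: Frobenius elements and the element `τ`.
-/

namespace Pool.Agent.Y183.PS

open Pool.Agent.H639R3 Pool.Agent.H124R3.ZT Pool.Agent.Y157.PS

/-- existence of a Frobenius element at a valuation ring `w` (the proof is the one of
`Pool.Agent.H124R3.ZT.exists_frob_at`, without the hypothesis on the characteristic) -/
theorem exists_frob {K L A : Type} [Field K] [Field L] [Algebra K L] [IsGalois K L]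
    [CommRing A] [IsDedekindDomain A] [Algebra A K] [IsFractionRing A K] [Algebra A L]
    [IsScalarTower A K L] (w : ValuationSubring L) (hA : ∀ a : A, algebraMap A L a ∈ w)
    (hne : w.comap (algebraMap K L) ≠ ⊤) (p m : ℕ) [Fact p.Prime]
    (hpw : w.valuation (p : L) < 1)
    (hfix : ∀ a : A, w.valuation ((algebraMap A L a) ^ p ^ m - algebraMap A L a) < 1)
    (hfin : Finite (A ⧸ cent w hA)) :
    ∃ σ : L ≃ₐ[K] L, (∀ a, a ∈ w ↔ σ a ∈ w) ∧ ∀ a ∈ w, w.valuation (σ a - a ^ p ^ m) < 1 := by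
  have hp : p.Prime := Fact.out
  have hmemI : ∀ b, IsIntegral A b → b ∈ w := fun b hb => integral_mem w hA b hb
  let B := integralClosure A L
  have hBw : ∀ c : B, algebraMap B L c ∈ w := fun c => hmemI _ c.2
  let Q : Ideal B := cent w hBw
  have hQ : Q.IsPrime := cent_isPrime w hBw
  have hmemQ : ∀ c : B, c ∈ Q ↔ w.valuation (c : L) < 1 := fun c => mem_cent w hBw c
  have hunder : Q.under A = cent w hA := by
    ext a
    rw [Ideal.under_def, Ideal.mem_comap, hmemQ, mem_cent]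
    rfl
  have hfin' : Finite (A ⧸ Q.under A) := by rw [hunder]; exact hfin
  have hdom : IsDomain (B ⧸ Q) := Ideal.Quotient.isDomain Q
  have hnt : Nontrivial (B ⧸ Q) := hdom.toNontrivial
  have hCQ : CharP (B ⧸ Q) p := by
    have h1 : (p : B ⧸ Q) = 0 := by
      have h2 : ((p : B)) ∈ Q := by
        rw [hmemQ]
        have h3 : (((p : B)) : L) = (p : L) := by push_cast; rfl
        rw [h3]
        exact hpw
      have h3 := (Ideal.Quotient.eq_zero_iff_mem (I := Q)).2 h2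
      rwa [map_natCast] at h3
    exact (CharP.charP_iff_prime_eq_zero hp).mpr h1
  have hER : ExpChar (B ⧸ Q) p := ExpChar.prime hp
  let φ : (B ⧸ Q) →+* (B ⧸ Q) := iterateFrobenius (B ⧸ Q) p m
  have hφ : ∀ x, φ x = x ^ p ^ m := fun x => iterateFrobenius_def p m x
  have hinj : Function.Injective φ := by
    intro x y hxy
    rw [hφ, hφ] at hxy
    exact (iterateFrobenius_inj (B ⧸ Q) p m) (by rw [iterateFrobenius_def, iterateFrobenius_def]; exact hxy)
  have hsurj : Function.Surjective φ := by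
    intro x
    have hint : IsIntegral (A ⧸ Q.under A) x := by
      obtain ⟨b, rfl⟩ := Ideal.Quotient.mk_surjective x
      have h1 : IsIntegral A b := isIntegral_algebraMap_iff (B := L) Subtype.val_injective |>.mp b.2
      have h2 : IsIntegral A (Ideal.Quotient.mk Q b) := h1.map (Ideal.Quotient.mkₐ A Q)
      exact h2.tower_top
    let S := Algebra.adjoin (A ⧸ Q.under A) {x}
    have hSf : Module.Finite (A ⧸ Q.under A) S :=
      Module.Finite.iff_fg.mpr (IsIntegral.fg_adjoin_singleton hint)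
    have hSfin : Finite S := Module.finite_of_finite (A ⧸ Q.under A)
    let ψ : S → S := fun y => y ^ p ^ m
    have hψ : Function.Injective ψ := by
      intro y z hyz
      apply Subtype.ext
      apply hinj
      rw [hφ, hφ]
      exact congrArg Subtype.val hyz
    obtain ⟨y, hy⟩ := (Finite.injective_iff_surjective.mp hψ) ⟨x, Algebra.self_mem_adjoin_singleton _ x⟩
    exact ⟨y, by rw [hφ]; exact congrArg Subtype.val hy⟩
  let s : (B ⧸ Q) ≃+* (B ⧸ Q) := RingEquiv.ofBijective φ ⟨hinj, hsurj⟩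
  have hs1 : ∀ b : B, s (Ideal.Quotient.mk Q b) = Ideal.Quotient.mk Q (b ^ p ^ m) := by
    intro b
    change φ _ = _
    rw [hφ, map_pow]
  obtain ⟨ν, hν⟩ := exists_lift (F := K) (L := L) (A := A) Q hQ s (by
    intro a
    rw [hs1, Ideal.Quotient.eq, hmemQ]
    have h1 := hfix a
    exact h1)
  have hνI : ∀ b : L, IsIntegral A b → IsIntegral A (ν b) := fun b hb =>
    hb.map (ν.restrictScalars A)
  refine ⟨ν, frob_of_int (K := K) (A := A) w hA hne ν (p ^ m) (pow_pos hp.pos m).ne' ?_⟩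
  intro b hb
  have h1 := hν ⟨b, hb⟩ ⟨ν b, hνI b hb⟩ rfl
  rw [hs1, Ideal.Quotient.eq, hmemQ] at h1
  exact h1

theorem fro : S_FRO := by
  intro A k κ _ _ _ _ _ _ _ _ _ _ _ _ hfinA V hV hn
  have hac : IsAlgClosed κ := IsAlgClosure.isAlgClosed k
  have halg : Algebra.IsAlgebraic k κ := IsAlgClosure.isAlgebraic
  have hgal : IsGalois k κ := by
    have : Normal k κ := inferInstance
    have : Algebra.IsSeparable k κ := inferInstance
    exact ⟨⟩
  have hinjκ : Function.Injective (algebraMap A κ) := by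
    rw [IsScalarTower.algebraMap_eq A k κ]
    exact (algebraMap k κ).injective.comp (IsFractionRing.injective A k)
  have hn' : ∀ a ∈ IsLocalRing.maximalIdeal A, V.valuation (algebraMap A κ a) < 1 := fun a ha =>
    (V.mem_nonunits_iff).1 (hn a ha)
  obtain ⟨ϖ, hϖ⟩ := IsDiscreteValuationRing.exists_irreducible A
  have hϖ0 : algebraMap A κ ϖ ≠ 0 := by
    intro h
    exact hϖ.ne_zero (hinjκ (by rw [h, map_zero]))
  have hne : V.comap (algebraMap k κ) ≠ ⊤ := by
    intro h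
    have h1 := hn' ϖ hϖ.not_isUnit
    rw [val_lt_one_iff] at h1
    rcases h1 with h1 | h1
    · exact hϖ0 h1
    · apply h1
      have h2 : (algebraMap A k ϖ)⁻¹ ∈ V.comap (algebraMap k κ) := by rw [h]; trivial
      rw [ValuationSubring.mem_comap, map_inv₀, ← IsScalarTower.algebraMap_apply] at h2
      exact h2
  have hcent : cent V hV = IsLocalRing.maximalIdeal A := by
    symm
    apply (IsLocalRing.maximalIdeal.isMaximal A).eq_of_le
    · exact (cent_isPrime V hV).ne_top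
    · intro a ha
      rw [mem_cent]
      exact hn' a ha
  have hfin : Finite (A ⧸ cent V hV) := by
    rw [hcent]
    exact hfinA
  letI : Fintype (IsLocalRing.ResidueField A) := Fintype.ofFinite _
  obtain ⟨p, hpc⟩ := CharP.exists (IsLocalRing.ResidueField A)
  obtain ⟨m, hp, hm⟩ := FiniteField.card (IsLocalRing.ResidueField A) p
  have hpf : Fact p.Prime := ⟨hp⟩
  have hpw : V.valuation (p : κ) < 1 := by
    have h1 : ((p : A)) ∈ IsLocalRing.maximalIdeal A := by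
      rw [← IsLocalRing.residue_eq_zero_iff, map_natCast]
      exact CharP.cast_eq_zero _ p
    have h2 := hn' _ h1
    rwa [map_natCast] at h2
  have hfix : ∀ a : A, V.valuation ((algebraMap A κ a) ^ p ^ (m : ℕ) - algebraMap A κ a) < 1 := by
    intro a
    have h1 : a ^ p ^ (m : ℕ) - a ∈ IsLocalRing.maximalIdeal A := by
      rw [← IsLocalRing.residue_eq_zero_iff, map_sub, map_pow, ← hm, FiniteField.pow_card, sub_self]
    have h2 := hn' _ h1
    rwa [map_sub, map_pow] at h2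
  obtain ⟨σ, h1, h2⟩ := exists_frob (K := k) (A := A) V hV hne p m hpw hfix hfin
  refine ⟨σ, fun z => (h1 z).symm, fun z hz => (V.mem_nonunits_iff).2 ?_⟩
  rw [Nat.card_eq_fintype_card, hm]
  exact h2 z hz

section tau

variable {k κ : Type} [Field k] [Field κ] [Algebra k κ] {V : ValuationSubring κ}

theorem Ine_one : Ine V (1 : κ ≃ₐ[k] κ) :=
  ⟨fun z => Iff.rfl, fun z _ => by rw [AlgEquiv.one_apply, sub_self]; exact V.nonunits.zero_mem⟩

theorem Ine_mul {σ τ : κ ≃ₐ[k] κ} (hσ : Ine V σ) (hτ : Ine V τ) : Ine V (σ * τ) := by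
  refine ⟨fun z => ?_, fun z hz => ?_⟩
  · rw [AlgEquiv.mul_apply, hσ.1, hτ.1]
  · rw [AlgEquiv.mul_apply]
    have h1 : σ (τ z) - z = (σ (τ z) - τ z) + (τ z - z) := by ring
    rw [h1]
    exact V.nonunits.add_mem (hσ.2 _ ((hτ.1 z).2 hz)) (hτ.2 z hz)

theorem Ine_pow {σ : κ ≃ₐ[k] κ} (hσ : Ine V σ) (n : ℕ) : Ine V (σ ^ n) := by
  induction n with
  | zero => rw [pow_zero]; exact Ine_one
  | succ n ih => rw [pow_succ]; exact Ine_mul ih hσ

theorem val_root {ℓ : ℕ} (hℓ : ℓ ≠ 0) {ζ : κ} (hζ : ζ ^ ℓ = 1) : V.valuation ζ = 1 := by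
  have h1 := congrArg V.valuation hζ
  rw [map_pow, map_one] at h1
  exact (pow_eq_one_iff_of_nonneg zero_le' hℓ).1 h1

/-- different `ℓ`-th roots of unity are different modulo the maximal ideal -/
theorem root_eq_one {ℓ : ℕ} (hℓ : ℓ ≠ 0) (hu : V.valuation (ℓ : κ) = 1) {ξ : κ} (hξ : ξ ^ ℓ = 1)
    (h : V.valuation (ξ - 1) < 1) : ξ = 1 := by
  by_contra hne
  have h1 : (∑ i ∈ Finset.range ℓ, ξ ^ i) = 0 := by
    have h2 := geom_sum_mul ξ ℓ
    rw [hξ, sub_self] at h2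
    exact (mul_eq_zero.1 h2).resolve_right (sub_ne_zero.2 hne)
  have hξV : V.valuation ξ = 1 := val_root hℓ hξ
  have h2 : ∀ i : ℕ, V.valuation (ξ ^ i - 1) < 1 := by
    intro i
    have h3 : ξ ^ i - 1 = (∑ j ∈ Finset.range i, ξ ^ j) * (ξ - 1) := (geom_sum_mul ξ i).symm
    rw [h3, map_mul]
    have h4 : V.valuation (∑ j ∈ Finset.range i, ξ ^ j) ≤ 1 := by
      rw [ValuationSubring.valuation_le_one_iff]
      exact sum_mem fun j _ => pow_mem ((V.valuation_le_one_iff _).1 hξV.le) j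
    calc V.valuation (∑ j ∈ Finset.range i, ξ ^ j) * V.valuation (ξ - 1)
        ≤ 1 * V.valuation (ξ - 1) := by gcongr
      _ < 1 := by rw [one_mul]; exact h
  have h5 : (ℓ : κ) = -(∑ i ∈ Finset.range ℓ, (ξ ^ i - 1)) := by
    rw [Finset.sum_sub_distrib, h1]
    simp
  have h6 : V.valuation (ℓ : κ) < 1 := by
    rw [h5, Valuation.map_neg]
    exact Valuation.map_sum_lt _ one_ne_zero fun i _ => h2 i
  rw [hu] at h6
  exact lt_irrefl _ h6

theorem Ine_root {ℓ : ℕ} (hℓ : ℓ ≠ 0) (hu : V.valuation (ℓ : κ) = 1) {σ : κ ≃ₐ[k] κ}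
    (hσ : Ine V σ) {ζ : κ} (hζ : ζ ^ ℓ = 1) : σ ζ = ζ := by
  have hζ1 : V.valuation ζ = 1 := val_root hℓ hζ
  have hζ0 : ζ ≠ 0 := by
    rintro rfl
    rw [map_zero] at hζ1
    exact zero_ne_one hζ1
  have h1 : σ ζ / ζ = 1 := by
    apply root_eq_one hℓ hu
    · rw [div_pow, ← map_pow, hζ, map_one, div_one]
    · have h2 : σ ζ / ζ - 1 = (σ ζ - ζ) / ζ := by field_simp
      rw [h2, map_div₀, hζ1, div_one]
      exact (V.mem_nonunits_iff).1 (hσ.2 ζ ((V.valuation_le_one_iff _).1 hζ1.le))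
  rwa [div_eq_one_iff_eq hζ0] at h1

end tau

theorem tau (hine : S_INE) (hfro : S_FRO) : S_TAU := by
  intro ℓ hℓ A k κ _ _ _ _ _ _ _ _ _ _ _ _ _ V ϖ δ m hb
  have hℓ0 : ℓ ≠ 0 := (Fact.out : ℓ.Prime).ne_zero
  have hinjκ : Function.Injective (algebraMap A κ) := by
    rw [IsScalarTower.algebraMap_eq A k κ]
    exact (algebraMap k κ).injective.comp (IsFractionRing.injective A k)
  have hϖ0 : algebraMap A κ ϖ ≠ 0 := by
    intro h
    exact hb.irr.ne_zero (hinjκ (by rw [h, map_zero]))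
  have hϖv : V.valuation (algebraMap A κ ϖ) < 1 :=
    (V.mem_nonunits_iff).1 (hb.non ϖ hb.irr.not_isUnit)
  have hδ0 : δ ≠ 0 := by
    intro h
    apply hb.δv.1
    rw [h, zero_pow hℓ0, zero_div]
  have hu : V.valuation (ℓ : κ) = 1 := by
    obtain ⟨u, hu⟩ := hb.lunit
    have h1 : algebraMap A κ (u : A) ∈ V := hb.mem _
    have h2 : algebraMap A κ ((u⁻¹ : Aˣ) : A) ∈ V := hb.mem _
    have h3 : V.valuation (algebraMap A κ (u : A)) * V.valuation (algebraMap A κ ((u⁻¹ : Aˣ) : A)) = 1 := by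
      rw [← map_mul, ← map_mul, Units.mul_inv, map_one, map_one]
    rw [← V.valuation_le_one_iff] at h1 h2
    have h4 : V.valuation (algebraMap A κ (u : A)) = 1 := by
      refine le_antisymm h1 ?_
      rw [← h3]
      calc V.valuation (algebraMap A κ (u : A)) * V.valuation (algebraMap A κ ((u⁻¹ : Aˣ) : A))
          ≤ V.valuation (algebraMap A κ (u : A)) * 1 := by gcongr
        _ = V.valuation (algebraMap A κ (u : A)) := mul_one _
    rwa [hu, map_natCast] at h4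
  -- all automorphisms multiply `δ` by a root of unity
  have hrt : ∀ σ : κ ≃ₐ[k] κ, (σ δ / δ) ^ ℓ = 1 := by
    intro σ
    obtain ⟨d, hd⟩ := hb.δk
    rw [div_pow, ← map_pow, hd, AlgEquiv.commutes, ← hd, div_self (pow_ne_zero _ hδ0)]
  have hmulδ : ∀ σ : κ ≃ₐ[k] κ, σ δ = (σ δ / δ) * δ := fun σ => by field_simp
  -- an element of the inertia group moves `δ`
  obtain ⟨τ, hτ, hτδ⟩ : ∃ τ : κ ≃ₐ[k] κ, Ine V τ ∧ τ δ ≠ δ := by
    by_contra hcon
    push Not at hcon
    obtain ⟨j, -, hj1, hj2⟩ := hine A k κ V ϖ hb.mem hb.non hb.irr δ hδ0 hcon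
    have v1 : V.valuation (δ / algebraMap A κ ϖ ^ j) = 1 := by
      refine le_antisymm ((V.valuation_le_one_iff _).2 hj1) ?_
      have h1 := (V.valuation_le_one_iff _).2 hj2
      rw [map_inv₀] at h1
      exact (inv_le_one₀ (zero_lt_iff.2 ((map_ne_zero _).2
        (div_ne_zero hδ0 (zpow_ne_zero _ hϖ0))))).1 h1
    obtain ⟨h0, h1, h2⟩ := hb.δv
    have v2 : V.valuation (δ ^ ℓ / algebraMap A κ ϖ ^ m) = 1 := by
      refine le_antisymm ((V.valuation_le_one_iff _).2 h1) ?_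
      have h3 := (V.valuation_le_one_iff _).2 h2
      rw [map_inv₀] at h3
      exact (inv_le_one₀ (zero_lt_iff.2 ((map_ne_zero _).2 h0))).1 h3
    have hv0 : V.valuation (algebraMap A κ ϖ) ≠ 0 := (map_ne_zero _).2 hϖ0
    rw [map_div₀, map_zpow₀, div_eq_one_iff_eq (zpow_ne_zero _ hv0)] at v1
    rw [map_div₀, map_zpow₀, map_pow, v1, div_eq_one_iff_eq (zpow_ne_zero _ hv0),
      ← zpow_natCast, ← zpow_mul] at v2
    apply hb.cop
    have hinj : Function.Injective (fun n : ℤ => V.valuation (algebraMap A κ ϖ) ^ n) :=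
      (zpow_right_strictAnti₀ (zero_lt_iff.2 hv0) hϖv).injective
    exact ⟨j, by rw [← hinj v2, mul_comm]⟩
  set ζ := τ δ / δ with hζ
  have hζ1 : ζ ≠ 1 := by
    intro h
    apply hτδ
    rw [hmulδ τ, ← hζ, h, one_mul]
  have hζℓ : ζ ^ ℓ = 1 := hrt τ
  have hζp : IsPrimitiveRoot ζ ℓ := by
    rw [IsPrimitiveRoot.iff_orderOf]
    exact orderOf_eq_prime hζℓ hζ1
  have hfix : ∀ (ξ : κ), ξ ^ ℓ = 1 → τ ξ = ξ := fun ξ hξ => Ine_root hℓ0 hu hτ hξ
  have hpow : ∀ a : ℕ, (τ ^ a) δ = ζ ^ a * δ := by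
    intro a
    induction a with
    | zero => simp
    | succ a ih =>
      rw [pow_succ', AlgEquiv.mul_apply, ih, map_mul, map_pow, hfix ζ hζℓ, hmulδ τ, ← hζ]
      ring
  have hpowr : ∀ (a : ℕ) (ξ : κ), ξ ^ ℓ = 1 → (τ ^ a) ξ = ξ := by
    intro a ξ hξ
    exact Ine_root hℓ0 hu (Ine_pow hτ a) hξ
  refine ⟨?_, τ, hτ, hτδ, ?_, ?_⟩
  · obtain ⟨φ₀, hφ₀⟩ := hfro A k κ V hb.mem hb.non
    have h1 : ((φ₀ δ / δ)⁻¹) ^ ℓ = 1 := by rw [inv_pow, hrt, inv_one]
    obtain ⟨a, -, ha⟩ := hζp.eq_pow_of_pow_eq_one h1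
    have hIa := Ine_pow hτ a
    refine ⟨τ ^ a * φ₀, ⟨fun z => ?_, fun z hz => ?_⟩, ?_⟩
    · rw [AlgEquiv.mul_apply, hIa.1, hφ₀.1]
    · rw [AlgEquiv.mul_apply]
      have h2 : (τ ^ a) (φ₀ z) - z ^ Nat.card (IsLocalRing.ResidueField A) =
        ((τ ^ a) (φ₀ z) - φ₀ z) + (φ₀ z - z ^ Nat.card (IsLocalRing.ResidueField A)) := by ring
      rw [h2]
      exact V.nonunits.add_mem (hIa.2 _ ((hφ₀.1 z).2 hz)) (hφ₀.2 z hz)
    · rw [AlgEquiv.mul_apply, hmulδ φ₀, map_mul, hpow, hpowr a _ (hrt φ₀), ha]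
      have h3 : φ₀ δ ≠ 0 := by
        rw [Ne, map_eq_zero_iff _ φ₀.injective]
        exact hδ0
      field_simp
  · rw [hpow, hζℓ, one_mul]
  · intro σ hσ
    obtain ⟨a, -, ha⟩ := hζp.eq_pow_of_pow_eq_one (hrt σ)
    refine ⟨a, ?_⟩
    have h1 : σ δ = (τ ^ a) δ := by rw [hpow, ha, ← hmulδ]
    rw [AlgEquiv.mul_apply, h1, ← AlgEquiv.mul_apply, inv_pow, inv_mul_cancel, AlgEquiv.one_apply]

end Pool.Agent.Y183.PS
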