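import Pool.Agent.H124R3.Inert

set_option autoImplicit false
set_option linter.all false

/-!
Project PS (helper157), task INE, the finite levels: the elements which are fixed by the inertia
group have the value of an element of the ground field.
-/

namespace Pool.Agent.Y183.PS

open Ideal MulAction Pointwise IsDedekindDomain

section ram

variable {A k M B C E : Type} [CommRing A] [IsDedekindDomain A] [Field k] [Field M] [Algebra A k]
  [IsFractionRing A k] [Algebra k M] [Algebra A M] [IsScalarTower A k M] [CommRing B]
  [IsDedekindDomain B] [Algebra B M] [IsFractionRing B M] [Algebra A B] [IsScalarTower A B M]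
  [FiniteDimensional k M] [IsGalois k M] [Module.Finite A B] [MulSemiringAction Gal(M/k) B]
  [SMulDistribClass Gal(M/k) B M]
  [CommRing C] [IsDedekindDomain C] [Field E] [Algebra C E] [IsFractionRing C E] [Algebra E M]
  [Algebra C B] [Algebra C M] [IsScalarTower C E M] [IsScalarTower C B M] [Algebra A C]
  [IsScalarTower A C B] [Module.Finite A C]

/-- the prime `P` has the same ramification index over `A` and over the integers of the inertia
field -/
theorem ram_eq (P : Ideal B) [P.IsPrime] [IsGaloisGroup (P.inertia Gal(M/k)) E M] (p : Ideal A)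
    (q : Ideal C) [P.LiesOver p] [P.LiesOver q] [p.IsMaximal] [q.IsMaximal] (hp : p ≠ ⊥)
    (hq : q ≠ ⊥) [Finite (A ⧸ p)] [Finite (C ⧸ q)] :
    p.ramificationIdx' P = q.ramificationIdx' P := by
  have f1 : Function.Injective (algebraMap A M) := by
    rw [IsScalarTower.algebraMap_eq A k M]
    exact (algebraMap k M).injective.comp (IsFractionRing.injective A k)
  have f2 : Function.Injective (algebraMap A B) := by
    have := IsScalarTower.algebraMap_eq A B M
    rw [this] at f1
    exact Function.Injective.of_comp f1
  have f3 : Function.Injective (algebraMap C M) := by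
    rw [IsScalarTower.algebraMap_eq C E M]
    exact (algebraMap E M).injective.comp (IsFractionRing.injective C E)
  have f4 : Function.Injective (algebraMap C B) := by
    have := IsScalarTower.algebraMap_eq C B M
    rw [this] at f3
    exact Function.Injective.of_comp f3
  have t1 : Module.IsTorsionFree A B := by
    rw [Module.isTorsionFree_iff_faithfulSMul]
    exact (faithfulSMul_iff_algebraMap_injective A B).mpr f2
  have t2 : Module.IsTorsionFree C B := by
    rw [Module.isTorsionFree_iff_faithfulSMul]
    exact (faithfulSMul_iff_algebraMap_injective C B).mpr f4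
  have i0 : Module.Finite C B := Module.Finite.right A C B
  have i1 : IsGaloisGroup Gal(M/k) A B := .of_isFractionRing _ _ _ k M
  have i2 : IsGaloisGroup (P.inertia Gal(M/k)) C B := .of_isFractionRing _ _ _ E M
  have h1 : Nat.card (P.inertia Gal(M/k)) = ramificationIdxIn p B :=
    card_inertia_eq_ramificationIdxIn p P
  have h2 : Nat.card (P.inertia (P.inertia Gal(M/k))) = ramificationIdxIn q B :=
    card_inertia_eq_ramificationIdxIn q P
  have h3 : P.inertia (P.inertia Gal(M/k)) = ⊤ := by
    rw [eq_top_iff]
    intro g _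
    exact g.2
  rw [h3, Subgroup.card_top, h1, ramificationIdxIn_eq_ramificationIdx p P Gal(M/k),
    ramificationIdxIn_eq_ramificationIdx q P (P.inertia Gal(M/k))] at h2
  rw [ramificationIdx'_eq_ramificationIdx p P hp, ramificationIdx'_eq_ramificationIdx q P hq, h2]

end ram

open Pool.Agent.H639R3 in
/-- an element of a finite Galois extension `M` of `k` which is fixed by the inertia group has the
value of a power of the uniformiser of `k` -/
theorem val_fixed {A k M : Type} [CommRing A] [IsDomain A] [IsDiscreteValuationRing A] [Field k]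
    [Field M] [Algebra A k] [IsFractionRing A k] [Algebra k M] [Algebra A M] [IsScalarTower A k M]
    [FiniteDimensional k M] [IsGalois k M] [Finite (IsLocalRing.ResidueField A)]
    (O : ValuationSubring M) (hA : ∀ a : A, algebraMap A M a ∈ O)
    (hn : ∀ a ∈ IsLocalRing.maximalIdeal A, O.valuation (algebraMap A M a) < 1) (ϖ : A)
    (hϖ : Irreducible ϖ) (c : M) (hc0 : c ≠ 0)
    (hc : ∀ g : M ≃ₐ[k] M, (∀ b, IsIntegral A b → O.valuation (g b - b) < 1) → g c = c) :
    ∃ j : ℤ, c / algebraMap A M ϖ ^ j ∈ O ∧ (c / algebraMap A M ϖ ^ j)⁻¹ ∈ O := by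
  have hinjM : Function.Injective (algebraMap A M) := by
    rw [IsScalarTower.algebraMap_eq A k M]
    exact (algebraMap k M).injective.comp (IsFractionRing.injective A k)
  have hϖ0 : algebraMap A M ϖ ≠ 0 := by
    intro h
    exact hϖ.ne_zero (hinjM (by rw [h, map_zero]))
  have hϖm : ϖ ∈ IsLocalRing.maximalIdeal A := hϖ.not_isUnit
  have hne : O ≠ ⊤ := by
    rintro rfl
    have h1 := hn ϖ hϖm
    rw [val_lt_one_iff] at h1
    rcases h1 with h1 | h1
    · exact hϖ0 h1
    · exact h1 trivial
  let B := integralClosure A M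
  have hD : IsDedekindDomain B := integralClosure.isDedekindDomain A k (L := M)
  have hFr : IsFractionRing B M := integralClosure.isFractionRing_of_finite_extension k M
  have hfin : Module.Finite A B := IsIntegralClosure.finite A k M B
  letI : MulSemiringAction Gal(M/k) B := IsIntegralClosure.MulSemiringAction A k M B
  have hdist : SMulDistribClass Gal(M/k) B M := inferInstance
  have hsmul : ∀ (σ : M ≃ₐ[k] M) (b : B), ((σ • b : B) : M) = σ b :=
    fun σ b => algebraMap_galRestrict_apply A σ b
  have hBO : ∀ b : B, algebraMap B M b ∈ O := fun b => integral_mem O hA _ b.2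
  let P : Ideal B := cent O hBO
  have hP : P.IsPrime := cent_isPrime O hBO
  have hPb : P ≠ ⊥ := cent_ne_bot O hBO hne
  have hmemP : ∀ b : B, b ∈ P ↔ O.valuation (b : M) < 1 := fun b => mem_cent O hBO b
  let E : IntermediateField k M := FixedPoints.intermediateField (P.inertia Gal(M/k))
  have hEG : IsGaloisGroup (P.inertia Gal(M/k)) E M :=
    IsGaloisGroup.subgroup Gal(M/k) k M (P.inertia Gal(M/k))
  have hcE : c ∈ E := by
    intro g
    apply hc
    intro b hb
    have h1 := g.2 ⟨b, hb⟩
    have h2 : ((((g : Gal(M/k)) • (⟨b, hb⟩ : B) - ⟨b, hb⟩ : B)) : M) = (g : Gal(M/k)) b - b := by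
      have := hsmul (g : Gal(M/k)) ⟨b, hb⟩
      push_cast
      rw [this]
    have h3 := (hmemP _).1 h1
    rw [h2] at h3
    exact h3
  let C := integralClosure A E
  have htowE : IsScalarTower A k E := inferInstance
  have htowEM : IsScalarTower A E M := .of_algebraMap_eq fun a => rfl
  have hCD : IsDedekindDomain C := integralClosure.isDedekindDomain A k (L := E)
  have hCFr : IsFractionRing C E := integralClosure.isFractionRing_of_finite_extension k E
  have hCfin : Module.Finite A C := IsIntegralClosure.finite A k E C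
  let i : C →+* B := RingHom.codRestrict ((algebraMap E M).comp (algebraMap C E)) B.toSubring
    (fun z => (z.2 : IsIntegral A (z : E)).algebraMap)
  letI : Algebra C B := i.toAlgebra
  have s1 : IsScalarTower C E M := .of_algebraMap_eq fun _ => rfl
  have s2 : IsScalarTower C B M := .of_algebraMap_eq fun _ => rfl
  have s3 : IsScalarTower A C B := .of_algebraMap_eq fun a => by
    apply Subtype.ext
    change algebraMap A M a = algebraMap E M (algebraMap A E a)
    rw [← IsScalarTower.algebraMap_apply]
  let p : Ideal A := IsLocalRing.maximalIdeal A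
  have hpmax : p.IsMaximal := inferInstance
  have hp0 : p ≠ ⊥ := IsDiscreteValuationRing.not_a_field A
  have hPp : P.LiesOver p := by
    constructor
    apply hpmax.eq_of_le
    · exact (Ideal.IsPrime.under A P).ne_top
    · intro a ha
      rw [Ideal.under_def, Ideal.mem_comap, hmemP]
      exact hn a ha
  let q : Ideal C := P.under C
  have hqp : q.IsPrime := Ideal.IsPrime.under C P
  have hPq : P.LiesOver q := ⟨rfl⟩
  have hqq : q.LiesOver p := by
    constructor
    rw [hPp.over]
    change P.under A = (P.under C).under A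
    rw [Ideal.under_under]
  have hq0 : q ≠ ⊥ := by
    intro h
    obtain ⟨a, ha, ha0⟩ := Submodule.exists_mem_ne_zero_of_ne_bot hp0
    have h1 : a ∈ q.under A := by rw [← hqq.over]; exact ha
    rw [h, Ideal.under_def, Ideal.mem_comap, Ideal.mem_bot] at h1
    apply ha0
    apply hinjM
    have h2 := congrArg (algebraMap C M) h1
    rw [map_zero] at h2
    rw [map_zero, ← h2]
    change algebraMap A M a = algebraMap E M (algebraMap A E a)
    rw [← IsScalarTower.algebraMap_apply]
  have hqmax : q.IsMaximal := hqp.isMaximal hq0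
  have hfinp : Finite (A ⧸ p) := ‹Finite (IsLocalRing.ResidueField A)›
  have hfinq : Finite (C ⧸ q) := Module.finite_of_finite (A ⧸ p)
  have hram := ram_eq (k := k) (M := M) (E := E) P p q hp0 hq0
  let v : HeightOneSpectrum A := ⟨p, hpmax.isPrime, hp0⟩
  let w : HeightOneSpectrum B := ⟨P, hP, hPb⟩
  let u : HeightOneSpectrum C := ⟨q, hqp, hq0⟩
  have t1 : Module.IsTorsionFree A B := by
    rw [Module.isTorsionFree_iff_faithfulSMul]
    refine (faithfulSMul_iff_algebraMap_injective A B).mpr fun x y hxy => hinjM ?_
    exact congrArg (algebraMap B M) hxy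
  have t2 : Module.IsTorsionFree C B := by
    rw [Module.isTorsionFree_iff_faithfulSMul]
    refine (faithfulSMul_iff_algebraMap_injective C B).mpr fun x y hxy => ?_
    have h1 := congrArg (algebraMap B M) hxy
    exact Subtype.ext ((algebraMap E M).injective h1)
  have hwp : w.asIdeal.LiesOver v.asIdeal := hPp
  have hwq : w.asIdeal.LiesOver u.asIdeal := hPq
  have e1 := HeightOneSpectrum.valuation_liesOver (L := M) v w (algebraMap A k ϖ)
  have e2 := HeightOneSpectrum.valuation_liesOver (L := M) u w (⟨c, hcE⟩ : E)
  have hspan : v.asIdeal = Ideal.span {ϖ} := hϖ.maximalIdeal_eq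
  rw [HeightOneSpectrum.valuation_of_algebraMap,
    HeightOneSpectrum.intValuation_singleton v hϖ.ne_zero hspan,
    ← IsScalarTower.algebraMap_apply] at e1
  have e3 : algebraMap E M (⟨c, hcE⟩ : E) = c := rfl
  rw [e3] at e2
  have hcE0 : (⟨c, hcE⟩ : E) ≠ 0 := fun h => hc0 (congrArg (algebraMap E M) h)
  have hu0 : u.valuation E (⟨c, hcE⟩ : E) ≠ 0 := (map_ne_zero _).2 hcE0
  obtain ⟨n, hn'⟩ : ∃ n : ℤ, u.valuation E (⟨c, hcE⟩ : E) = WithZero.exp n :=
    ⟨_, (WithZero.exp_log hu0).symm⟩
  rw [hn'] at e2
  have hram' : v.asIdeal.ramificationIdx' w.asIdeal = u.asIdeal.ramificationIdx' w.asIdeal := hram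
  rw [hram'] at e1
  have hval : w.valuation M (c / algebraMap A M ϖ ^ (-n)) = 1 := by
    rw [map_div₀, map_zpow₀, ← e1, ← e2, ← WithZero.exp_nsmul, ← WithZero.exp_nsmul,
      ← WithZero.exp_zsmul, ← WithZero.exp_sub, WithZero.exp_eq_one]
    simp
    ring
  have hz0 : c / algebraMap A M ϖ ^ (-n) ≠ 0 := div_ne_zero hc0 (zpow_ne_zero _ hϖ0)
  have key : ∀ z : M, z ≠ 0 → w.valuation M z = 1 → z ∈ O := by
    intro z hz hz1
    rcases dich P hPb z with ⟨a, b, hb, hab⟩ | ⟨a, b, hb, ha, hab⟩
    · exact (mem_iff_of_cent O hBO hne z).2 ⟨a, b, hb, hab⟩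
    · exfalso
      have h1 := congrArg (w.valuation M) hab
      rw [map_mul, map_inv₀, hz1, inv_one, one_mul,
        (HeightOneSpectrum.valuation_eq_one_iff_notMem (v := w) (K := M)).2 hb] at h1
      have h2 : w.valuation M (algebraMap B M a) < 1 :=
        (HeightOneSpectrum.valuation_lt_one_iff_mem w a).2 ha
      rw [← h1] at h2
      exact lt_irrefl _ h2
  refine ⟨-n, key _ hz0 hval, key _ (inv_ne_zero hz0) ?_⟩
  rw [map_inv₀, hval, inv_one]

end Pool.Agent.Y183.PS
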