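import Pool.Agent.Y183.PS.L
set_option autoImplicit false

/-! The sharp regularity: the two cases. -/

namespace Pool.Agent.Y183.PS

open MeasureTheory Set Filter Topology Complex
open scoped ENNReal NNReal
open Pool.Agent.Y183.PP (Poly ev)
open Pool.Agent.Y183.PQ (Av Av_meas Av_int2 HF_meas NN2 mI kp kp_meas kp_norm cD cD_one cD_top
  TH_odd Gsq)
open Pool.Agent.Y183.PR (Ix Bk Dg TT tw stm closure)
open Pool.Agent.W771.MD (qe)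
open Pool.Agent.Y183.LS (BA BA1_vol)

/-- the interpolated estimate of the averages -/
lemma box1 (m J I : ℕ) (hm : 0 < m) (q s : ℝ) (hq : 2 * ((m : ℝ) + 1) / m < q)
    (hq2 : q ≤ 2 * ((m : ℝ) + 2) / m) (hs : ((m : ℝ) + 2) / q - m / 2 < s) :
    ∃ (C : ℝ≥0) (β : ℝ), 0 ≤ β ∧ β < s ∧ ∀ (D : ℕ) (e : Ix J I m)
    (φ : Bk J I), Dg D φ → ∀ H : (Fin m → ℝ) → ℂ, Measurable H → ∫⁻ v, ‖H v‖ₑ ^ 2 ≠ ∞ →
    ∀ δ : ℝ, 0 < δ → ∫⁻ t : ℝ, (∫⁻ y : Fin m → ℝ, ‖TT e φ (Av δ H) y t‖ₑ ^ q) ≤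
      (C * cD D * ENNReal.ofReal (δ ^ (-β)) * (∫⁻ v, ‖H v‖ₑ ^ 2) ^ (1 / 2 : ℝ)) ^ q := by
  obtain ⟨q₀, q₁, θ, h1, h2, h3, h4, h5, h6, h7⟩ := params m hm q s hq hq2 hs
  have hm0 : (0 : ℝ) < m := by exact_mod_cast hm
  have hq0 : 0 < q := lt_trans (by positivity) hq
  have hq₀ : 0 < q₀ := lt_trans (by positivity) h1
  have hq₁ : 0 < q₁ := lt_trans (by positivity) h2
  have h8 : 2 * 1 / (m : ℝ) < q₀ - 2 := by
    rw [div_lt_iff₀ hm0]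
    rw [div_lt_iff₀ hm0] at h1
    linarith
  have h9 : 0 < q₀ - 2 := lt_trans (by positivity) h8
  obtain ⟨C₀, hC₀⟩ := box0 m J I hm q₀ (q₀ - 2) h8 le_rfl h7
  obtain ⟨C₁, hC₁⟩ := tomasT m J I hm q₁ h2
  refine ⟨C₀ ^ θ * C₁ ^ (1 - θ), θ * ((m : ℝ) / 2 * (q₀ - 2) / q₀), by positivity, h6, ?_⟩
  intro D e φ hφ H hH hH2 δ hδ
  set N := ∫⁻ v, ‖H v‖ₑ ^ 2 with hN
  have hAv : ∫⁻ v, ‖Av δ H v‖ₑ ^ 2 ≤ N := Av_int2 δ hH
  have hA := hC₀ D e φ hφ H hH hH2 δ hδ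
  have hB := (hC₁ e φ (Av δ H) (Av_meas δ hH) (ne_top_of_le_ne_top hH2 hAv)).trans
    (ENNReal.rpow_le_rpow (mul_le_mul' (le_refl (C₁ : ℝ≥0∞))
      (ENNReal.rpow_le_rpow hAv (show (0 : ℝ) ≤ 1 / 2 by norm_num))) hq₁.le)
  have hm2 := TT_meas2 e φ (Av δ H) (Av_meas δ hH)
  have e1 : ∀ r : ℝ, ∫⁻ t : ℝ, (∫⁻ y : Fin m → ℝ, ‖TT e φ (Av δ H) y t‖ₑ ^ r) =
      ∫⁻ z : ℝ × (Fin m → ℝ), ‖TT e φ (Av δ H) z.2 z.1‖ₑ ^ r := by
    intro r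
    rw [Measure.volume_eq_prod, lintegral_prod _ (hm2.enorm.pow_const r).aemeasurable]
  rw [e1] at hA hB ⊢
  have h10 := interp _ (fun z : ℝ × (Fin m → ℝ) => ‖TT e φ (Av δ H) z.2 z.1‖ₑ) hm2.enorm q q₀ q₁ θ
    hq0 hq₀ hq₁ h3 h4 h5 _ _ hA hB
  refine h10.trans ?_
  apply ENNReal.rpow_le_rpow _ hq0.le
  have h11 : 0 < 1 - θ := by linarith
  rw [ENNReal.mul_rpow_of_nonneg _ _ h3.le, ENNReal.mul_rpow_of_nonneg _ _ h3.le,
    ENNReal.mul_rpow_of_nonneg _ _ h3.le, ENNReal.mul_rpow_of_nonneg _ _ h11.le,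
    ENNReal.ofReal_rpow_of_pos (by positivity), ← Real.rpow_mul hδ.le, ENNReal.coe_mul,
    ENNReal.coe_rpow_of_nonneg _ h3.le, ENNReal.coe_rpow_of_nonneg _ h11.le]
  have e2 : -((m : ℝ) / 2 * (q₀ - 2) / q₀) * θ = -(θ * ((m : ℝ) / 2 * (q₀ - 2) / q₀)) := by ring
  have e3 : (N ^ (1 / 2 : ℝ)) ^ θ * (N ^ (1 / 2 : ℝ)) ^ (1 - θ) = N ^ (1 / 2 : ℝ) := by
    rw [← ENNReal.rpow_add_of_nonneg _ _ h3.le h11.le]
    have : θ + (1 - θ) = 1 := by ring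
    rw [this, ENNReal.rpow_one]
  have e4 : cD D ^ θ ≤ cD D := by
    calc cD D ^ θ ≤ cD D ^ (1 : ℝ) := ENNReal.rpow_le_rpow_of_exponent_le (cD_one D) h4.le
      _ = _ := ENNReal.rpow_one _
  rw [e2]
  calc _ = (C₀ : ℝ≥0∞) ^ θ * (C₁ : ℝ≥0∞) ^ (1 - θ) * cD D ^ θ *
        ENNReal.ofReal (δ ^ (-(θ * ((m : ℝ) / 2 * (q₀ - 2) / q₀)))) *
          ((N ^ (1 / 2 : ℝ)) ^ θ * (N ^ (1 / 2 : ℝ)) ^ (1 - θ)) := by ring
    _ ≤ _ := by
        rw [e3]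
        gcongr

/-- **the full case, sharp regularity** -/
theorem fullT (m : ℕ) (hm : 0 < m) (J I : ℕ) (q s : ℝ) (hs0 : 0 ≤ s)
    (hq : 2 * ((m : ℝ) + 1) / m < q) (hs : ((m : ℝ) + 2) / q - m / 2 < s) :
    ∃ C : ℝ≥0, ∀ (D : ℕ) (e : Ix J I m)
    (φ : Bk J I), Dg D φ → ∀ g : (Fin m → ℝ) → ℂ, Measurable g →
    ∀ K : ℝ≥0∞, K ≠ ∞ → ∫⁻ z, ‖g z‖ₑ ^ 2 ≤ K ^ 2 →
    (∀ h : Fin m → ℝ, ∫⁻ z, ‖g (z + h) - g z‖ₑ ^ 2 ≤
      (K * ENNReal.ofReal (‖h‖ ^ s)) ^ 2) →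
    ∫⁻ t : ℝ, (∫⁻ y : Fin m → ℝ, ‖TT e φ g y t‖ₑ ^ q) ≤ (C * cD D * K) ^ q := by
  have hm0 : (0 : ℝ) < m := by exact_mod_cast hm
  have hq0 : 0 < q := lt_trans (by positivity) hq
  rcases le_or_gt q (2 * ((m : ℝ) + 2) / m) with hq2 | hq2
  · obtain ⟨C, β, hβ0, hβs, hC⟩ := box1 m J I hm q s hq hq2 hs
    have hq1 : 1 < q := by
      refine lt_trans ?_ hq
      rw [lt_div_iff₀ hm0]
      linarith
    obtain ⟨C1, hC1⟩ := closure q hq1 s β hβ0 hβs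
    refine ⟨C1 * C, ?_⟩
    intro D e φ hφ g hg K hK hN hKh
    have hcl := hC1 m J I Unit Unit e φ (Measure.dirac ()) (Measure.dirac ()) (fun _ _ => 1)
      measurable_const (fun _ _ => by simp) 2 le_rfl ((C : ℝ≥0∞) * cD D) ?_
      (fun _ => g)
      (hg.comp measurable_snd) K hK ?_ ?_
    · refine le_trans (le_of_eq ?_) (hcl.trans (le_of_eq ?_))
      · unfold Pool.Agent.Y183.PQ.ST
        apply lintegral_congr
        intro t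
        rw [lintegral_dirac]
        unfold Pool.Agent.Y183.PQ.HF
        simp
      · rw [ENNReal.coe_mul]
        congr 1
        ring
    · -- the estimate of the averages
      intro g hg hgN δ hδ hδ1
      have hHF : ∀ w : Unit × ℝ, Pool.Agent.Y183.PQ.HF (Measure.dirac ()) (fun _ _ => (1 : ℂ)) g w = g () := by
        intro w
        ext z
        unfold Pool.Agent.Y183.PQ.HF
        simp
      set H := g () with hH
      have hHm : Measurable H := hg.comp (measurable_const.prodMk measurable_id)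
      have hNe : NN2 (Measure.dirac ()) 2 g = ∫⁻ z, ‖H z‖ₑ ^ 2 := by
        unfold NN2
        apply lintegral_congr
        intro z
        rw [lintegral_dirac]
        norm_num
        rfl
      rw [hNe] at hgN ⊢
      have h1 := hC D e φ hφ H hHm hgN δ hδ
      simp only [hHF]
      unfold Pool.Agent.Y183.PQ.ST
      simp only [lintegral_dirac]
      exact h1
    · refine le_trans (le_of_eq ?_) hN
      unfold NN2
      apply lintegral_congr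
      intro z
      rw [lintegral_dirac]
      norm_num
    · intro h
      refine le_trans (le_of_eq ?_) (hKh h)
      unfold NN2
      apply lintegral_congr
      intro z
      rw [lintegral_dirac]
      norm_num
  · obtain ⟨C, hC⟩ := tomasT m J I hm q hq2
    refine ⟨C, ?_⟩
    intro D e φ hφ g hg K hK hN hKh
    refine (hC e φ g hg (ne_top_of_le_ne_top (ENNReal.pow_ne_top hK) hN)).trans ?_
    apply ENNReal.rpow_le_rpow _ hq0.le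
    have h1 : (∫⁻ v, ‖g v‖ₑ ^ 2) ^ (1 / 2 : ℝ) ≤ K := by
      calc _ ≤ (K ^ 2) ^ (1 / 2 : ℝ) := ENNReal.rpow_le_rpow hN (by norm_num)
        _ = _ := by
            rw [← ENNReal.rpow_natCast, ← ENNReal.rpow_mul]
            norm_num
    calc (C : ℝ≥0∞) * (∫⁻ v, ‖g v‖ₑ ^ 2) ^ (1 / 2 : ℝ) ≤ C * K := mul_le_mul' le_rfl h1
      _ = C * 1 * K := by rw [mul_one]
      _ ≤ _ := mul_le_mul' (mul_le_mul' le_rfl (cD_one D)) le_rfl

end Pool.Agent.Y183.PS
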