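import Pool.Agent.Y183.PR.M
import Pool.Agent.Y183.TS.D
set_option autoImplicit false

/-! Interpolation with the theorem of Tomas and Stein: the sharp regularity. -/

namespace Pool.Agent.Y183.PS

open MeasureTheory Set Filter Topology Complex
open scoped ENNReal NNReal
open Pool.Agent.Y183.PP hiding HF
open Pool.Agent.Y183.PQ
open Pool.Agent.Y183.PR
open Pool.Agent.W771.MD (qe em)
open Pool.Agent.Y183.LS (BA BA1_vol)

/-- interpolation of norms -/
lemma interp {X : Type*} [MeasurableSpace X] (μ : Measure X) (f : X → ℝ≥0∞) (hf : Measurable f)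
    (q q₀ q₁ θ : ℝ) (hq : 0 < q) (hq₀ : 0 < q₀) (hq₁ : 0 < q₁) (h0 : 0 < θ) (h1 : θ < 1)
    (hqq : 1 / q = θ / q₀ + (1 - θ) / q₁) (A B : ℝ≥0∞) (hA : ∫⁻ x, f x ^ q₀ ∂μ ≤ A ^ q₀)
    (hB : ∫⁻ x, f x ^ q₁ ∂μ ≤ B ^ q₁) :
    ∫⁻ x, f x ^ q ∂μ ≤ (A ^ θ * B ^ (1 - θ)) ^ q := by
  have h2 : 0 < 1 - θ := by linarith
  set p : ℝ := q₀ / (q * θ) with hp
  set p' : ℝ := q₁ / (q * (1 - θ)) with hp'
  have hp0 : 0 < p := by positivity
  have hp'0 : 0 < p' := by positivity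
  have e0 : 1 = q * (θ / q₀) + q * ((1 - θ) / q₁) := by
    rw [← mul_add, ← hqq]
    field_simp
  have hpp : p.HolderConjugate p' := by
    constructor
    · rw [hp, hp', inv_div, inv_div, inv_one, mul_div_assoc, mul_div_assoc]
      exact e0.symm
    · exact hp0
    · exact hp'0
  have h3 := ENNReal.lintegral_mul_le_Lp_mul_Lq μ hpp (f := fun x => f x ^ (q * θ))
    (g := fun x => f x ^ (q * (1 - θ))) (hf.pow_const _).aemeasurable (hf.pow_const _).aemeasurable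
  simp only [Pi.mul_apply] at h3
  have e1 : ∀ x, f x ^ (q * θ) * f x ^ (q * (1 - θ)) = f x ^ q := by
    intro x
    rw [← ENNReal.rpow_add_of_nonneg _ _ (by positivity) (by positivity)]
    congr 1
    ring
  have e2 : ∀ x, (f x ^ (q * θ)) ^ p = f x ^ q₀ := by
    intro x
    rw [← ENNReal.rpow_mul]
    congr 1
    rw [hp]
    field_simp
  have e3 : ∀ x, (f x ^ (q * (1 - θ))) ^ p' = f x ^ q₁ := by
    intro x
    rw [← ENNReal.rpow_mul]
    congr 1
    rw [hp']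
    field_simp
  simp only [e1, e2, e3] at h3
  refine h3.trans ?_
  rw [ENNReal.mul_rpow_of_nonneg _ _ hq.le, ← ENNReal.rpow_mul, ← ENNReal.rpow_mul]
  apply mul_le_mul'
  · calc _ ≤ (A ^ q₀) ^ (1 / p) := ENNReal.rpow_le_rpow hA (by positivity)
      _ = _ := by
          rw [← ENNReal.rpow_mul]
          congr 1
          rw [hp]
          field_simp
  · calc _ ≤ (B ^ q₁) ^ (1 / p') := ENNReal.rpow_le_rpow hB (by positivity)
      _ = _ := by
          rw [← ENNReal.rpow_mul]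
          congr 1
          rw [hp']
          field_simp

/-- choice of the parameters -/
lemma params (m : ℕ) (hm : 0 < m) (q s : ℝ) (hq : 2 * ((m : ℝ) + 1) / m < q)
    (hq2 : q ≤ 2 * ((m : ℝ) + 2) / m) (hs : ((m : ℝ) + 2) / q - m / 2 < s) :
    ∃ q₀ q₁ θ : ℝ, 2 * ((m : ℝ) + 1) / m < q₀ ∧ 2 * ((m : ℝ) + 2) / m < q₁ ∧ 0 < θ ∧ θ < 1 ∧
      1 / q = θ / q₀ + (1 - θ) / q₁ ∧ θ * ((m : ℝ) / 2 * (q₀ - 2) / q₀) < s ∧
      (q₀ - 2) * m ≤ q₀ := by
  have hm0 : (0 : ℝ) < m := by exact_mod_cast hm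
  have hq0 : 0 < q := lt_trans (by positivity) hq
  set A : ℝ := 1 / q - m / (2 * (m + 2)) with hA
  set c : ℝ := (m : ℝ) / (2 * (m + 1) * (m + 2)) with hc
  have hc0 : 0 < c := by positivity
  have hA0 : 0 ≤ A := by
    rw [hA, sub_nonneg, div_le_div_iff₀ (by positivity) hq0]
    rw [le_div_iff₀ hm0] at hq2
    nlinarith
  have hAc : A < c := by
    rw [hA, hc]
    have h1 : 1 / q < (m : ℝ) / (2 * (m + 1)) := by
      rw [div_lt_div_iff₀ hq0 (by positivity)]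
      rw [div_lt_iff₀ hm0] at hq
      nlinarith
    have h2 : (m : ℝ) / (2 * (m + 1)) - m / (2 * (m + 2)) = m / (2 * (m + 1) * (m + 2)) := by
      field_simp
      ring
    linarith
  -- the limit
  have hlim : Tendsto (fun ε : ℝ => (A + ε) * ((m : ℝ) / (2 * (m + 1)) + m * ε) / c) (𝓝[>] 0)
      (𝓝 ((A + 0) * ((m : ℝ) / (2 * (m + 1)) + m * 0) / c)) := by
    apply tendsto_nhdsWithin_of_tendsto_nhds
    apply Continuous.tendsto
    fun_prop
  have hval : (A + 0) * ((m : ℝ) / (2 * (m + 1)) + m * 0) / c < s := by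
    refine lt_of_eq_of_lt ?_ hs
    rw [hA, hc]
    field_simp
    ring
  have hev1 := hlim.eventually_lt_const hval
  have hev2 : ∀ᶠ ε : ℝ in 𝓝[>] 0, ε < min (c - A) (min ((m : ℝ) / (2 * (m + 2))) (1 / (2 * m * (m + 1)))) := by
    apply eventually_nhdsWithin_of_eventually_nhds
    apply eventually_lt_nhds
    refine lt_min (by linarith) (lt_min (by positivity) (by positivity))
  have hev3 : ∀ᶠ ε : ℝ in 𝓝[>] (0 : ℝ), 0 < ε := eventually_mem_nhdsWithin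
  obtain ⟨ε, ⟨h1, h2⟩, h3⟩ := ((hev1.and hev2).and hev3).exists
  have h4 : ε < c - A := lt_of_lt_of_le h2 (min_le_left _ _)
  have h5 : ε < (m : ℝ) / (2 * (m + 2)) :=
    lt_of_lt_of_le h2 ((min_le_right _ _).trans (min_le_left _ _))
  have h6 : ε < 1 / (2 * m * (m + 1)) :=
    lt_of_lt_of_le h2 ((min_le_right _ _).trans (min_le_right _ _))
  set x : ℝ := (m : ℝ) / (2 * (m + 1)) - ε with hx
  set y : ℝ := (m : ℝ) / (2 * (m + 2)) - ε with hy
  have hy0 : 0 < y := by rw [hy]; linarith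
  have hxy : x - y = c := by
    rw [hx, hy, hc]
    field_simp
    ring
  have hx0 : 0 < x := by linarith
  have hθ : (A + ε) / c = (1 / q - y) / c := by
    rw [hA, hy]
    ring_nf
  refine ⟨1 / x, 1 / y, (A + ε) / c, ?_, ?_, by positivity, ?_, ?_, ?_, ?_⟩
  · rw [div_lt_div_iff₀ hm0 hx0, hx]
    have : 2 * ((m : ℝ) + 1) * ((m : ℝ) / (2 * (m + 1)) - ε) = m - 2 * (m + 1) * ε := by
      field_simp
    rw [this]
    have : 0 < 2 * ((m : ℝ) + 1) * ε := by positivity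
    linarith
  · rw [div_lt_div_iff₀ hm0 hy0, hy]
    have : 2 * ((m : ℝ) + 2) * ((m : ℝ) / (2 * (m + 2)) - ε) = m - 2 * (m + 2) * ε := by
      field_simp
    rw [this]
    have : 0 < 2 * ((m : ℝ) + 2) * ε := by positivity
    linarith
  · rw [div_lt_one hc0]
    linarith
  · have e1 : ∀ w z : ℝ, w / (1 / z) = w * z := fun w z => by rw [div_div_eq_mul_div, div_one]
    rw [hθ, e1, e1]
    have e : (1 - (1 / q - y) / c) * y = y - (1 / q - y) / c * y := by ring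
    rw [e]
    have e2 : (1 / q - y) / c * x - (1 / q - y) / c * y = 1 / q - y := by
      rw [← mul_sub, hxy]
      field_simp
    linarith
  · refine lt_of_eq_of_lt ?_ h1
    have e1 : (m : ℝ) / 2 * (1 / x - 2) / (1 / x) = m / 2 - m * x := by
      field_simp
    rw [e1, hx]
    have e2 : (m : ℝ) / 2 - m * (m / (2 * (m + 1)) - ε) = m / (2 * (m + 1)) + m * ε := by
      field_simp
      ring
    rw [e2]
    ring
  · -- the last bound
    have h7 : (m : ℝ) - 1 ≤ 2 * m * x := by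
      rw [hx]
      have h8 : 2 * (m : ℝ) * (m / (2 * (m + 1)) - ε) = m * m / (m + 1) - 2 * m * ε := by
        field_simp
      have h9 : 2 * (m : ℝ) * ε ≤ 1 / (m + 1) := by
        have := mul_le_mul_of_nonneg_left h6.le (show (0 : ℝ) ≤ 2 * m by positivity)
        refine this.trans (le_of_eq ?_)
        field_simp
      have h10 : (m : ℝ) * m / (m + 1) - 1 / (m + 1) = m - 1 := by
        field_simp
        ring
      rw [h8]
      linarith
    have e : (1 / x - 2) * (m : ℝ) = (m - 2 * m * x) / x := by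
      field_simp
    rw [e, div_le_div_iff_of_pos_right hx0]
    linarith

lemma cD_pow1 (D J : ℕ) (θ q : ℝ) (h : θ * J ≤ q) : (cD D ^ θ) ^ J ≤ cD D ^ q := by
  rw [← ENNReal.rpow_natCast, ← ENNReal.rpow_mul]
  exact ENNReal.rpow_le_rpow_of_exponent_le (cD_one D) h

variable {m : ℕ}

/-- the estimate of the averages -/
lemma box0 (m J I : ℕ) (hm : 0 < m) (q θ : ℝ) (hθ1 : 2 * 1 / (m : ℝ) < θ) (hθ2 : θ ≤ q - 2)
    (hθ3 : θ * m ≤ q) : ∃ C : ℝ≥0, ∀ (D : ℕ) (e : Ix J I m)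
    (φ : Bk J I), Dg D φ → ∀ H : (Fin m → ℝ) → ℂ, Measurable H → ∫⁻ v, ‖H v‖ₑ ^ 2 ≠ ∞ →
    ∀ δ : ℝ, 0 < δ → ∫⁻ t : ℝ, (∫⁻ y : Fin m → ℝ, ‖TT e φ (Av δ H) y t‖ₑ ^ q) ≤
      (C * cD D * ENNReal.ofReal (δ ^ (-((m : ℝ) / 2 * θ / q))) *
        (∫⁻ v, ‖H v‖ₑ ^ 2) ^ (1 / 2 : ℝ)) ^ q := by
  have hm0 : (0 : ℝ) < m := by exact_mod_cast hm
  have hθ0 : 0 < θ := lt_trans (by positivity) hθ1
  have hq0 : 0 < q := by linarith
  obtain ⟨C, hC⟩ := stm m J I hm q θ 1 zero_le_one hθ1 hθ2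
  refine ⟨C ^ (1 / q), ?_⟩
  intro D e φ hφ H hHm hgN δ hδ
  have h1 := hC D e φ hφ δ hδ Unit (Measure.dirac ()) (fun _ => H) (hHm.comp measurable_snd)
    (fun _ => hgN) ((∫⁻ v, ‖H v‖ₑ ^ 2) ^ ((q - 2) / 2)) (fun z => ‖H z‖ₑ ^ 2)
    (hHm.enorm.pow_const 2) (by
      intro z T _
      rw [lintegral_const, lintegral_const, measure_univ, mul_one, ENNReal.rpow_one,
        Measure.restrict_apply_univ]
      apply le_of_eq
      ring)
  simp only [lintegral_dirac] at h1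
  refine h1.trans ?_
  set N := ∫⁻ v, ‖H v‖ₑ ^ 2 with hNd
  have e1 : N ^ ((q - 2) / 2) * N = N ^ (q / 2) := by
    nth_rewrite 2 [← ENNReal.rpow_one N]
    rw [← ENNReal.rpow_add_of_nonneg _ _ (by linarith) zero_le_one]
    congr 1
    ring
  rw [e1, ENNReal.mul_rpow_of_nonneg _ _ hq0.le, ENNReal.mul_rpow_of_nonneg _ _ hq0.le,
    ENNReal.mul_rpow_of_nonneg _ _ hq0.le, ← ENNReal.rpow_mul N,
    ENNReal.ofReal_rpow_of_pos (by positivity), ← Real.rpow_mul hδ.le,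
    ENNReal.coe_rpow_of_nonneg _ (by positivity), ← ENNReal.rpow_mul (C : ℝ≥0∞)]
  have e2 : 1 / q * q = 1 := by field_simp
  have e3 : -((m : ℝ) / 2 * θ / q) * q = -((m : ℝ) / 2 * θ) := by field_simp
  have e4 : 1 / 2 * q = q / 2 := by ring
  rw [e2, e3, e4, ENNReal.rpow_one]
  have hcard : ((J + I : ℕ) : ℝ) ≤ m := by
    have := card_eq e
    exact_mod_cast (show J + I ≤ m by omega)
  have h5 := cD_pow1 D (J + I) θ q ((mul_le_mul_of_nonneg_left hcard hθ0.le).trans hθ3)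
  gcongr

/-- Tomas-Stein for the twisted operator -/
lemma tomasT (m J I : ℕ) (hm : 0 < m) (q : ℝ) (hq : 2 * ((m : ℝ) + 2) / m < q) : ∃ C : ℝ≥0,
    ∀ (e : Ix J I m) (φ : Bk J I) (H : (Fin m → ℝ) → ℂ), Measurable H →
    ∫⁻ v, ‖H v‖ₑ ^ 2 ≠ ∞ → ∫⁻ t : ℝ, (∫⁻ y : Fin m → ℝ, ‖TT e φ H y t‖ₑ ^ q) ≤
      (C * (∫⁻ v, ‖H v‖ₑ ^ 2) ^ (1 / 2 : ℝ)) ^ q := by
  obtain ⟨C, hC⟩ := Pool.Agent.Y183.TS.tomas m hm q hq
  refine ⟨C, ?_⟩
  intro e φ H hH hH2
  have hsq : ((∫⁻ v, ‖H v‖ₑ ^ 2) ^ (1 / 2 : ℝ)) ^ 2 = ∫⁻ v, ‖H v‖ₑ ^ 2 := by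
    rw [← ENNReal.rpow_natCast, ← ENNReal.rpow_mul]
    norm_num
  have h1 := hC (fun v => H v * tw e φ v) (hH.mul (tw_cont e φ).measurable)
    ((∫⁻ v, ‖H v‖ₑ ^ 2) ^ (1 / 2 : ℝ)) (ENNReal.rpow_ne_top_of_nonneg (by norm_num) hH2) (by
      rw [hsq]
      apply lintegral_mono
      intro v
      apply pow_le_pow_left'
      rw [enorm_mul]
      have : ‖tw e φ v‖ₑ = 1 := by
        rw [← ofReal_norm, Pool.Agent.Y183.PR.tw_norm, ENNReal.ofReal_one]
      rw [this, mul_one])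
  refine le_trans (le_of_eq ?_) h1
  unfold Pool.Agent.Y183.PR.TT
  simp only [mul_assoc]

/-- measurability -/
lemma TT_meas2 {J I : ℕ} (e : Ix J I m) (φ : Bk J I) (H : (Fin m → ℝ) → ℂ) (hH : Measurable H) :
    Measurable fun z : ℝ × (Fin m → ℝ) => Pool.Agent.Y183.PR.TT e φ H z.2 z.1 := by
  have h1 : Measurable fun b : (ℝ × (Fin m → ℝ)) × (Fin m → ℝ) =>
      H b.2 * (Pool.Agent.Y183.PR.tw e φ b.2 * Pool.Agent.W771.MD.em b.1.2 b.1.1 b.2) := by
    apply Measurable.mul (hH.comp measurable_snd)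
    apply Measurable.mul ((Pool.Agent.Y183.PR.tw_cont e φ).measurable.comp measurable_snd)
    exact Pool.Agent.W771.MD.em_cont.measurable.comp
      ((measurable_snd.comp measurable_fst).prodMk (measurable_fst.comp measurable_fst)
        |>.prodMk measurable_snd)
  have h2 := h1.stronglyMeasurable.integral_prod_right' (ν := volume.restrict (BA 1 m))
  exact h2.measurable

end Pool.Agent.Y183.PS
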