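import Pool.Agent.Y183.PS.K
set_option autoImplicit false

/-! The case of a rough variable: the estimate. -/

namespace Pool.Agent.Y183.PS

open MeasureTheory Set Filter Topology Complex
open scoped ENNReal NNReal
open Pool.Agent.Y183.PP (Poly ev)
open Pool.Agent.Y183.PQ (Av Av_meas Av_int2 HF_meas NN2 mI kp kp_meas kp_norm cD cD_one cD_top
  TH_odd)
open Pool.Agent.Y183.PR (Ix Bk Dg TT tw stm closure Gsq card_eq)
open Pool.Agent.Y183.LS (BA BA1_vol)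

/-- choice of the exponent -/
lemma exp_rough (m : ℕ) (hm : 0 < m) (q s : ℝ)
    (hq : 2 * ((m : ℝ) + 2) / (m + 1) < q) (hs : (m : ℝ) / ((m + 1) * q) < s) :
    ∃ θ : ℝ, 2 * ((m : ℝ) / (m + 1)) / m < θ ∧ θ ≤ q - 2 ∧
      0 ≤ (m : ℝ) / 2 * θ / q ∧ (m : ℝ) / 2 * θ / q < s ∧ θ * m ≤ q := by
  have hm0 : (0 : ℝ) < m := by exact_mod_cast hm
  have hq' : 2 * ((m : ℝ) + 2) < q * (m + 1) := by rwa [div_lt_iff₀ (by linarith)] at hq
  have hq0 : 0 < q := by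
    by_contra hc
    push Not at hc
    nlinarith
  have h1 : 2 / ((m : ℝ) + 1) < q - 2 := by
    rw [div_lt_iff₀ (by linarith)]
    linarith
  have h2 : 2 / ((m : ℝ) + 1) < 2 * s * q / m := by
    rw [div_lt_div_iff₀ (by linarith) hm0]
    rw [div_lt_iff₀ (by positivity)] at hs
    nlinarith
  have h2' : 2 / ((m : ℝ) + 1) < q / m := by
    rw [div_lt_div_iff₀ (by linarith) hm0]
    nlinarith
  set M := min (q - 2) (min (2 * s * q / m) (q / m)) with hM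
  have h3 : 2 / ((m : ℝ) + 1) < M := lt_min h1 (lt_min h2 h2')
  have h4 : M ≤ q - 2 := min_le_left _ _
  have h5 : M ≤ 2 * s * q / m := (min_le_right _ _).trans (min_le_left _ _)
  have h5' : M ≤ q / m := (min_le_right _ _).trans (min_le_right _ _)
  have h6 : 2 * ((m : ℝ) / (m + 1)) / m = 2 / (m + 1) := by
    field_simp
  have h7 : 0 < 2 / ((m : ℝ) + 1) := by positivity
  have h9 : 0 < (2 / ((m : ℝ) + 1) + M) / 2 := by linarith
  refine ⟨(2 / (m + 1) + M) / 2, by rw [h6]; linarith, by linarith, by positivity, ?_, ?_⟩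
  · rw [div_lt_iff₀ hq0]
    have h8 : (2 / ((m : ℝ) + 1) + M) / 2 < 2 * s * q / m := by linarith
    rw [lt_div_iff₀ hm0] at h8
    nlinarith
  · have h8 : (2 / ((m : ℝ) + 1) + M) / 2 ≤ q / m := by linarith
    rwa [le_div_iff₀ hm0] at h8

/-- **the case of a rough variable** -/
theorem roughT (m : ℕ) (hm : 0 < m) (J I : ℕ) (q p s : ℝ)
    (hq : 2 * ((m : ℝ) + 2) / (m + 1) < q) (hp2 : 2 ≤ p)
    (hp : ((m : ℝ) + 1) * q < p * ((m + 1) * (q - 1) - 2)) (hs : (m : ℝ) / ((m + 1) * q) < s) :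
    ∃ C : ℝ≥0,
    ∀ (D : ℕ) (e : Ix J I m) (φ : Bk J I), Dg D φ →
    ∀ g : ℝ → (Fin m → ℝ) → ℂ, Measurable (Function.uncurry g) →
    ∀ K : ℝ≥0∞, K ≠ ∞ → NN2 mI p g ≤ K ^ 2 →
    (∀ h : Fin m → ℝ, NN2 mI p (fun u z => g u (z + h) - g u z) ≤
      (K * ENNReal.ofReal (‖h‖ ^ s)) ^ 2) →
    ∫⁻ t : ℝ, (∫⁻ x : ℝ, (∫⁻ y : Fin m → ℝ,
      ‖TT e φ (Pool.Agent.Y183.PQ.HF mI kp g (x, t)) y t‖ₑ ^ q)) ≤ (C * cD D * K) ^ q := by
  obtain ⟨θ, hθ1, hθ2, hθ3, hθ4, hθ5⟩ := exp_rough m hm q s hq hs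
  have hm1 : 1 ≤ m := by omega
  have hm0 : (1 : ℝ) ≤ m := by exact_mod_cast hm1
  have hθ0 : 0 < θ := lt_of_le_of_lt (by positivity) hθ1
  have hq2 : 2 < q := by linarith
  have hq0 : 0 < q := by linarith
  have hq' : 2 < ((m : ℝ) + 1) * (q - 2) := by
    rw [div_lt_iff₀ (by linarith)] at hq
    nlinarith
  obtain ⟨C, hC⟩ := stm m J I hm q θ ((m : ℝ) / (m + 1)) (by positivity) hθ1 hθ2
  obtain ⟨C0, hC00, hC0⟩ := TH_odd m hm1 q p hq2 hq' hp2 hp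
  obtain ⟨C1, hC1⟩ := closure q (by linarith) s ((m : ℝ) / 2 * θ / q) hθ3 hθ4
  refine ⟨C1 * (C * C0) ^ (1 / q), ?_⟩
  intro D e φ hφ g hg K hK hN hKh
  have hcl := hC1 m J I ℝ ℝ e φ mI volume kp kp_meas kp_norm p hp2
    ((((C * C0) ^ (1 / q) : ℝ≥0) : ℝ≥0∞) * cD D) ?_ g hg K hK hN hKh
  · refine hcl.trans (le_of_eq ?_)
    rw [ENNReal.coe_mul]
    congr 1
    ring
  · -- the estimate of the averages
    intro g hg hgN δ hδ hδ1
    -- a positive constant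
    set N := NN2 mI p g with hNd
    have key : ∀ A : ℝ≥0∞, A ≠ 0 → A ≠ ∞ → N ≤ A ^ 2 →
        Pool.Agent.Y183.PQ.ST volume q (fun a => TT e φ
          (Av δ (Pool.Agent.Y183.PQ.HF mI kp g (a.2.1, a.1))) a.2.2 a.1) ≤
          C * (cD D ^ θ) ^ (J + I) * ENNReal.ofReal (δ ^ (-((m : ℝ) / 2 * θ))) *
            ((C0 * A ^ (q - 2)) * N) := by
      intro A hA0 hAt hNA
      have hΨ : Measurable fun z : Fin m → ℝ => (∫⁻ u, ‖g u z‖ₑ ^ p ∂mI) ^ (2 / p) := by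
        apply Measurable.pow_const
        exact Measurable.lintegral_prod_right' (f := fun w : (Fin m → ℝ) × ℝ => ‖g w.2 w.1‖ₑ ^ p)
          ((hg.comp measurable_swap).enorm.pow_const p)
      exact hC D e φ hφ δ hδ ℝ volume (Pool.Agent.Y183.PQ.HF mI kp g) (HF_meas mI kp kp_meas g hg)
        (fun w => Gsq mI kp kp_meas kp_norm p hp2 g hg hgN w) (C0 * A ^ (q - 2))
        (fun z => (∫⁻ u, ‖g u z‖ₑ ^ p ∂mI) ^ (2 / p)) hΨ (hC0 g hg A hA0 hAt hNA)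
    have hgoal : ∀ X : ℝ≥0∞, Pool.Agent.Y183.PQ.ST volume q (fun a => TT e φ
        (Av δ (Pool.Agent.Y183.PQ.HF mI kp g (a.2.1, a.1))) a.2.2 a.1) ≤
        C * (cD D ^ θ) ^ (J + I) * ENNReal.ofReal (δ ^ (-((m : ℝ) / 2 * θ))) * (C0 * X ^ q) → X ^ 2 = N →
        Pool.Agent.Y183.PQ.ST volume q (fun a => TT e φ
          (Av δ (Pool.Agent.Y183.PQ.HF mI kp g (a.2.1, a.1))) a.2.2 a.1) ≤
          ((((C * C0) ^ (1 / q) : ℝ≥0) : ℝ≥0∞) * cD D *
            ENNReal.ofReal (δ ^ (-((m : ℝ) / 2 * θ / q))) * N ^ (1 / 2 : ℝ)) ^ q := by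
      intro X h1 h2
      refine h1.trans ?_
      have e4 : N ^ (1 / 2 : ℝ) = X := by
        rw [← h2, ← ENNReal.rpow_natCast, ← ENNReal.rpow_mul]
        norm_num
      rw [e4, ENNReal.mul_rpow_of_nonneg _ _ hq0.le, ENNReal.mul_rpow_of_nonneg _ _ hq0.le,
        ENNReal.mul_rpow_of_nonneg _ _ hq0.le,
        ENNReal.ofReal_rpow_of_pos (by positivity), ← Real.rpow_mul hδ.le,
        ENNReal.coe_rpow_of_nonneg _ (by positivity), ← ENNReal.rpow_mul ((C * C0 : ℝ≥0) : ℝ≥0∞)]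
      have e2 : 1 / q * q = 1 := by field_simp
      have e3 : -((m : ℝ) / 2 * θ / q) * q = -((m : ℝ) / 2 * θ) := by field_simp
      rw [e2, e3, ENNReal.rpow_one, ENNReal.coe_mul]
      have hcard : ((J + I : ℕ) : ℝ) ≤ m := by
        have := card_eq e
        exact_mod_cast (show J + I ≤ m by omega)
      have h5 := cD_pow1 D (J + I) θ q ((mul_le_mul_of_nonneg_left hcard hθ0.le).trans hθ5)
      calc C * (cD D ^ θ) ^ (J + I) * ENNReal.ofReal (δ ^ (-((m : ℝ) / 2 * θ))) * (C0 * X ^ q) ≤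
          C * cD D ^ q * ENNReal.ofReal (δ ^ (-((m : ℝ) / 2 * θ))) * (C0 * X ^ q) := by gcongr
        _ = _ := by ring
    by_cases hN0 : N = 0
    · apply hgoal 0 _ (by rw [hN0]; norm_num)
      have h3 := key 1 one_ne_zero ENNReal.one_ne_top (by rw [hN0]; exact zero_le)
      rw [hN0, mul_zero, mul_zero] at h3
      exact h3.trans zero_le
    · have hX0 : N ^ (1 / 2 : ℝ) ≠ 0 := (ENNReal.rpow_pos (pos_iff_ne_zero.mpr hN0) hgN).ne'
      have hXt : N ^ (1 / 2 : ℝ) ≠ ∞ := ENNReal.rpow_ne_top_of_nonneg (by norm_num) hgN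
      have hX2 : (N ^ (1 / 2 : ℝ)) ^ 2 = N := by
        rw [← ENNReal.rpow_natCast, ← ENNReal.rpow_mul]
        norm_num
      apply hgoal (N ^ (1 / 2 : ℝ)) _ hX2
      refine (key (N ^ (1 / 2 : ℝ)) hX0 hXt hX2.ge).trans (le_of_eq ?_)
      have e5 : (N ^ (1 / 2 : ℝ)) ^ (q - 2) * N = (N ^ (1 / 2 : ℝ)) ^ q := by
        nth_rewrite 2 [← hX2]
        rw [← ENNReal.rpow_natCast (N ^ (1 / 2 : ℝ)) 2, ← ENNReal.rpow_add_of_nonneg _ _
          (by linarith) (by positivity)]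
        congr 1
        push_cast
        ring
      rw [mul_assoc (C0 : ℝ≥0∞), e5]

end Pool.Agent.Y183.PS
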