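import Pool.Agent.Y183.PR.R
import Pool.Agent.Y183.PS.M
set_option autoImplicit false

/-! The extension operator, rotated coordinates, involutions: the sharp regularity. -/

namespace Pool.Agent.Y183.PS

open MeasureTheory Set Filter Topology Complex Matrix
open scoped ENNReal NNReal
open Pool.Agent.Y183.PP (Poly ev)
open Pool.Agent.W771.MD (qe nuC LL FFn Cb nuC_eq FFn_meas cons_meas LL_eq1 ext_LL II_scale two_mem)
open Pool.Agent.W771 (II ph E1)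
open Pool.Agent.Y183.LS (BA BA1_vol)
open Pool.Agent.Y183.PQ (HF NN2 mI kp cD cutI gam gam_fin E1_cut cutI_mem cutI_zero cD_one)
open Pool.Agent.Y247.QT (MM MM_det MM_det_abs MM_mulVec MM_sq MM_cube MM_norm lint_mat int_mat
  lint_mat_prod mulVec_cont lint_cons' cons_add cons_norm)
open Pool.Agent.Y183.PR

/-- **all variables in groups of one or two, rotated coordinates** -/
theorem fullE (m J I : ℕ) (q s : ℝ) (hs0 : 0 ≤ s) (hs1 : s ≤ 1)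
    (hq : 2 * (((m + 1 : ℕ) : ℝ) + 1) / ((m + 1 : ℕ) : ℝ) < q)
    (hs : (((m + 1 : ℕ) : ℝ) + 2) / q - ((m + 1 : ℕ) : ℝ) / 2 < s) :
    ∃ C : ℝ≥0, ∀ (D : ℕ) (e : Ix J I (m + 1)) (φ : Bk J I), Dg D φ →
    ∀ V : Matrix (Fin (m + 1)) (Fin (m + 1)) ℝ, Vᵀ * V = 1 →
    ∀ g : (Fin (m + 1) → ℝ) → ℂ, Measurable g → (∀ ξ, ξ ∉ BA 1 (m + 1) → g ξ = 0) →
    ∀ K : ℝ≥0∞, K ≠ ∞ → ∫⁻ ξ, ‖g ξ‖ₑ ^ 2 ≤ K ^ 2 →
    (∀ h : Fin (m + 1) → ℝ, ∫⁻ ξ, ‖g (ξ + h) - g ξ‖ₑ ^ 2 ≤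
      (K * ENNReal.ofReal (‖h‖ ^ s)) ^ 2) →
    ∫⁻ y : (Fin (m + 1) → ℝ) × ℝ,
      ‖Pool.Agent.H728R3.SR.ext (fun ξ => g ξ * tw e φ (V *ᵥ ξ)) y‖ₑ ^ q ≤
        (C * cD D * K) ^ q := by
  obtain ⟨C, hC⟩ := fullT (m + 1) (by omega) J I q s hs0 hq hs
  have hm0 : (0 : ℝ) ≤ m := Nat.cast_nonneg m
  have hn0 : (0 : ℝ) < ((m + 1 : ℕ) : ℝ) := by positivity
  have hq0 : 0 < q := lt_trans (by positivity) hq
  have hDt : ENNReal.ofReal (((m : ℝ) + 1) ^ (m + 1)) * (C : ℝ≥0∞) *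
      ENNReal.ofReal (((m : ℝ) + 1) ^ 2) ≠ ∞ :=
    ENNReal.mul_ne_top (ENNReal.mul_ne_top ENNReal.ofReal_ne_top ENNReal.coe_ne_top)
      ENNReal.ofReal_ne_top
  refine ⟨(ENNReal.ofReal (((m : ℝ) + 1) ^ (m + 1)) * (C : ℝ≥0∞) *
      ENNReal.ofReal (((m : ℝ) + 1) ^ 2)).toNNReal, ?_⟩
  intro D e φ hφ V hV g hg hz K hK hN hM
  rw [ENNReal.coe_toNNReal hDt]
  set U : Matrix (Fin (m + 1)) (Fin (m + 1)) ℝ := Vᵀ with hUd
  have hVV : V * Vᵀ = 1 := mul_eq_one_comm.mp hV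
  have hU : Uᵀ * U = 1 := by rw [hUd, transpose_transpose, hVV]
  have hW : Measurable fun ξ : Fin (m + 1) → ℝ => tw e φ (V *ᵥ ξ) :=
    (tw_cont e φ).measurable.comp (mulVec_cont V).measurable
  have h1 := lint_rot U hU _ hW g hg hz q hq0.le
  refine h1.trans ?_
  have e2 : ∀ ζ : Fin (m + 1) → ℝ, g (MM U *ᵥ ζ) * tw e φ (V *ᵥ (MM U *ᵥ ζ)) =
      g (MM U *ᵥ ζ) * tw e (scB ((m : ℝ) + 1) φ) ζ := by
    intro ζ
    rw [tw_scB, MM_mulVec, mulVec_smul, mulVec_mulVec, hUd, hVV, one_mulVec]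
  simp only [e2]
  set g' : (Fin (m + 1) → ℝ) → ℂ := fun ζ => g (MM U *ᵥ ζ) with hg'
  have hg'm : Measurable g' := hg.comp (mulVec_cont (MM U)).measurable
  have hcast : ∀ f : (Fin (m + 1) → ℝ) → ℂ, ∀ K : ℝ≥0∞, ∫⁻ ξ, ‖f ξ‖ₑ ^ (2 : ℝ) = ∫⁻ ξ, ‖f ξ‖ₑ ^ 2 := by
    intro f K
    simp only [ENNReal.rpow_ofNat]
  have hone : (1 : ℝ≥0∞) ≤ ENNReal.ofReal (((m : ℝ) + 1) ^ 2) := by
    rw [← ENNReal.ofReal_one]
    apply ENNReal.ofReal_le_ofReal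
    exact one_le_pow₀ (by linarith)
  have hmain := hC D e (scB ((m : ℝ) + 1) φ) (Dg_scB _ hφ) g' hg'm
    (ENNReal.ofReal (((m : ℝ) + 1) ^ 2) * K) (ENNReal.mul_ne_top ENNReal.ofReal_ne_top hK) (by
      have h2 := nrm_rot U hU 2 (fun ξ => ‖g ξ‖ₑ) hg.enorm
      simp only [ENNReal.rpow_ofNat] at h2
      refine h2.trans (hN.trans (pow_le_pow_left' ?_ 2))
      calc K = 1 * K := (one_mul K).symm
        _ ≤ _ := mul_le_mul' hone le_rfl) (by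
      intro h
      have h2 := reg_rot U hU 2 s (by norm_num) hs0 hs1 g hg K (by
        intro h
        simp only [ENNReal.rpow_ofNat]
        exact hM h) h
      simp only [ENNReal.rpow_ofNat] at h2
      exact h2)
  have hEm : Measurable fun y : (Fin (m + 1) → ℝ) × ℝ => ‖Pool.Agent.H728R3.SR.ext
      (fun ζ => g' ζ * tw e (scB ((m : ℝ) + 1) φ) ζ) y‖ₑ ^ q :=
    (Pool.Agent.W771.MD.ext_meas (m + 1) _ (hg'm.mul (tw_cont e _).measurable)).enorm.pow_const q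
  have e3 : ∫⁻ y : (Fin (m + 1) → ℝ) × ℝ, ‖Pool.Agent.H728R3.SR.ext
      (fun ζ => g' ζ * tw e (scB ((m : ℝ) + 1) φ) ζ) y‖ₑ ^ q =
      ∫⁻ t : ℝ, (∫⁻ y : Fin (m + 1) → ℝ, ‖TT e (scB ((m : ℝ) + 1) φ) g' y t‖ₑ ^ q) := by
    rw [Measure.volume_eq_prod, lintegral_prod_symm _ hEm.aemeasurable]
    simp only [TT_ext]
  rw [e3]
  refine (mul_le_mul_right hmain _).trans (le_of_eq ?_)
  rw [← ENNReal.mul_rpow_of_nonneg _ _ hq0.le]
  congr 1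
  ring

/-- **the estimate for involutions** -/
theorem fullI (m : ℕ) (q s : ℝ) (hs0 : 0 ≤ s) (hs1 : s ≤ 1)
    (hq : 2 * (((m + 1 : ℕ) : ℝ) + 1) / ((m + 1 : ℕ) : ℝ) < q)
    (hs : (((m + 1 : ℕ) : ℝ) + 2) / q - ((m + 1 : ℕ) : ℝ) / 2 < s) :
    ∃ C : ℝ≥0, ∀ (D : ℕ) (σ : Fin (m + 1) → Fin (m + 1)), (∀ i, σ (σ i) = i) →
    ∀ P : Fin (m + 1) → Poly, (∀ i, (P i).totalDegree ≤ D) →
    ∀ V : Matrix (Fin (m + 1)) (Fin (m + 1)) ℝ, Vᵀ * V = 1 →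
    ∀ g : (Fin (m + 1) → ℝ) → ℂ, Measurable g → (∀ ξ, ξ ∉ BA 1 (m + 1) → g ξ = 0) →
    ∀ K : ℝ≥0∞, K ≠ ∞ → ∫⁻ ξ, ‖g ξ‖ₑ ^ 2 ≤ K ^ 2 →
    (∀ h : Fin (m + 1) → ℝ, ∫⁻ ξ, ‖g (ξ + h) - g ξ‖ₑ ^ 2 ≤
      (K * ENNReal.ofReal (‖h‖ ^ s)) ^ 2) →
    ∫⁻ y : (Fin (m + 1) → ℝ) × ℝ, ‖Pool.Agent.H728R3.SR.ext
      (fun ξ => g ξ * cexp (Complex.I * (phase σ P (V *ᵥ ξ) : ℂ))) y‖ₑ ^ q ≤
        (C * cD D * K) ^ q := by
  choose C hC using fun J I => fullE m J I q s hs0 hs1 hq hs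
  have hq0 : 0 < q := lt_trans (by positivity) hq
  refine ⟨∑ J ∈ Finset.range (m + 2), ∑ I ∈ Finset.range (m + 2), C J I, ?_⟩
  intro D σ hσ P hP V hV g hg hz K hK hN hM
  obtain ⟨J, I, e, h1, h2⟩ := inv_equiv σ hσ
  obtain ⟨φ, hφ, hφ2⟩ := phase_tw σ hσ e h1 h2 D P hP
  have hcard := card_eq e
  have h3 := hC J I D e φ hφ V hV g hg hz K hK hN hM
  simp only [hφ2]
  refine h3.trans ?_
  apply ENNReal.rpow_le_rpow _ hq0.le
  refine mul_le_mul' (mul_le_mul' ?_ le_rfl) le_rfl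
  have h4 : C J I ≤ ∑ J ∈ Finset.range (m + 2), ∑ I ∈ Finset.range (m + 2), C J I := by
    refine le_trans ?_ (Finset.single_le_sum (f := fun J => ∑ I ∈ Finset.range (m + 2), C J I)
      (fun _ _ => zero_le) (Finset.mem_range.mpr (show J < m + 2 by omega)))
    exact Finset.single_le_sum (f := fun I => C J I) (fun _ _ => zero_le)
      (Finset.mem_range.mpr (show I < m + 2 by omega))
  exact_mod_cast h4

/-- **one rough variable, the others in groups of one or two** -/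
theorem roughE (m J I : ℕ) (hm : 0 < m) (q p s : ℝ) (hs : (m : ℝ) / ((m + 1) * q) < s)
    (hs1 : s ≤ 1) (hq : 2 * ((m : ℝ) + 2) / (m + 1) < q)
    (hp2 : 2 ≤ p) (hp : ((m : ℝ) + 1) * q < p * ((m + 1) * (q - 1) - 2)) : ∃ C : ℝ≥0,
    ∀ (D : ℕ) (e : Ix J I m) (φ : Bk J I), Dg D φ → ∀ g : (Fin (m + 1) → ℝ) → ℂ, Measurable g →
    ∀ K : ℝ≥0∞, K ≠ ∞ →
    ∫⁻ v : Fin m → ℝ, (∫⁻ u in Icc (-1 : ℝ) 1, ‖g (Fin.cons u v)‖ₑ ^ p) ^ (2 / p) ≤ K ^ 2 →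
    (∀ h : Fin m → ℝ, ∫⁻ v : Fin m → ℝ, (∫⁻ u in Icc (-1 : ℝ) 1,
      ‖g (Fin.cons u (v + h)) - g (Fin.cons u v)‖ₑ ^ p) ^ (2 / p) ≤
        (K * ENNReal.ofReal (‖h‖ ^ s)) ^ 2) →
    ∫⁻ y : (Fin (m + 1) → ℝ) × ℝ,
      ‖Pool.Agent.H728R3.SR.ext (fun ξ => g ξ * tw e φ (Fin.tail ξ)) y‖ₑ ^ q ≤
        (C * cD D * K) ^ q := by
  obtain ⟨C, hC⟩ := roughT m hm J I q p s hq hp2 hp hs
  have hm0 : (0 : ℝ) < m := by exact_mod_cast hm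
  have hq0 : 0 < q := lt_trans (by positivity) hq
  have hp0 : 0 < p := by linarith
  refine ⟨2 * C, ?_⟩
  intro D e φ hφ g hg K hK hN hM
  have hN' : NN2 mI p (uv g) ≤ K ^ 2 := (uv_norm p hp0 g hg).trans hN
  have hNt : NN2 mI p (uv g) ≠ ∞ := ne_top_of_le_ne_top (ENNReal.pow_ne_top hK) hN'
  have hmain := hC D e φ hφ (uv g) (uv_meas g hg) K hK hN' (by
    intro h
    rw [uv_sub]
    have hgm : Measurable fun ξ : Fin (m + 1) → ℝ => g (ξ + Fin.cons 0 h) - g ξ :=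
      (hg.comp (measurable_id.add_const _)).sub hg
    refine (uv_norm p hp0 _ hgm).trans (le_trans (le_of_eq ?_) (hM h))
    simp only [← Pool.Agent.Y247.QT.cons_add])
  have hfm : Measurable fun ξ : Fin (m + 1) → ℝ => g ξ * tw e φ (Fin.tail ξ) := by
    refine hg.mul ((tw_cont e φ).measurable.comp ?_)
    unfold Fin.tail
    fun_prop
  rw [Pool.Agent.W771.MD.lint_cons _
    ((Pool.Agent.W771.MD.ext_meas (m + 1) _ hfm).enorm.pow_const q)]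
  have h2q : (2 : ℝ≥0∞) ^ q ≠ ∞ := ENNReal.rpow_ne_top_of_nonneg hq0.le (by norm_num)
  have e1 : ∀ (t x : ℝ) (y : Fin m → ℝ), ‖Pool.Agent.H728R3.SR.ext
      (fun ξ => g ξ * tw e φ (Fin.tail ξ)) (Fin.cons x y, t)‖ₑ ^ q =
      2 ^ q * ‖TT e φ (HF mI kp (uv g) (x, t)) y t‖ₑ ^ q := by
    intro t x y
    rw [ext_rough e φ p hp2 g hg hNt x y t, enorm_mul, ENNReal.mul_rpow_of_nonneg _ _ hq0.le]
    congr 2
    rw [← ofReal_norm]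
    norm_num
  simp only [e1, lintegral_const_mul' _ _ h2q]
  refine (mul_le_mul_right hmain _).trans (le_of_eq ?_)
  rw [← ENNReal.mul_rpow_of_nonneg _ _ hq0.le]
  congr 1
  push_cast
  ring

/-- **one rough variable in rotated coordinates** -/
theorem roughR (m J I : ℕ) (hm : 0 < m) (q p s : ℝ) (hs : (m : ℝ) / ((m + 1) * q) < s)
    (hs1 : s ≤ 1) (hq : 2 * ((m : ℝ) + 2) / (m + 1) < q)
    (hp2 : 2 ≤ p) (hp : ((m : ℝ) + 1) * q < p * ((m + 1) * (q - 1) - 2)) : ∃ C : ℝ≥0,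
    ∀ (D : ℕ) (e : Ix J I m) (φ : Bk J I), Dg D φ →
    ∀ V : Matrix (Fin (m + 1)) (Fin (m + 1)) ℝ, Vᵀ * V = 1 →
    ∀ b : ℝ → ℂ, Measurable b → (∀ u, ‖b u‖ ≤ 1) →
    ∀ g : (Fin (m + 1) → ℝ) → ℂ, Measurable g → (∀ ξ, ξ ∉ BA 1 (m + 1) → g ξ = 0) →
    ∀ K : ℝ≥0∞, K ≠ ∞ → (∫⁻ ξ, ‖g ξ‖ₑ ^ p ≤ K ^ p) →
    (∀ h : Fin (m + 1) → ℝ, ∫⁻ ξ, ‖g (ξ + h) - g ξ‖ₑ ^ p ≤
      (K * ENNReal.ofReal (‖h‖ ^ s)) ^ p) →
    ∫⁻ y : (Fin (m + 1) → ℝ) × ℝ, ‖Pool.Agent.H728R3.SR.ext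
      (fun ξ => g ξ * (b ((V *ᵥ ξ) 0) * tw e φ (Fin.tail (V *ᵥ ξ)))) y‖ₑ ^ q ≤
        (C * cD D * K) ^ q := by
  obtain ⟨C, hC⟩ := roughE m J I hm q p s hs hs1 hq hp2 hp
  have hm0 : (0 : ℝ) ≤ m := Nat.cast_nonneg m
  have hm1 : (0 : ℝ) < m := by exact_mod_cast hm
  have hq0 : 0 < q := lt_trans (by positivity) hq
  have hp0 : 0 < p := by linarith
  have hs0 : 0 ≤ s := (lt_of_le_of_lt (by positivity) hs).le
  have h2t : (2 : ℝ≥0∞) ^ (m + 1) ≠ ∞ := ENNReal.pow_ne_top (by norm_num)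
  have hDt : ENNReal.ofReal (((m : ℝ) + 1) ^ (m + 1)) * (C : ℝ≥0∞) *
      (2 ^ (m + 1) * ENNReal.ofReal (((m : ℝ) + 1) ^ 2)) ≠ ∞ :=
    ENNReal.mul_ne_top (ENNReal.mul_ne_top ENNReal.ofReal_ne_top ENNReal.coe_ne_top)
      (ENNReal.mul_ne_top h2t ENNReal.ofReal_ne_top)
  refine ⟨(ENNReal.ofReal (((m : ℝ) + 1) ^ (m + 1)) * (C : ℝ≥0∞) *
      (2 ^ (m + 1) * ENNReal.ofReal (((m : ℝ) + 1) ^ 2))).toNNReal, ?_⟩
  intro D e φ hφ V hV b hb hb1 g hg hz K hK hN hM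
  rw [ENNReal.coe_toNNReal hDt]
  set U : Matrix (Fin (m + 1)) (Fin (m + 1)) ℝ := Vᵀ with hUd
  have hVV : V * Vᵀ = 1 := mul_eq_one_comm.mp hV
  have hU : Uᵀ * U = 1 := by rw [hUd, transpose_transpose, hVV]
  have htail : Measurable fun ξ : Fin (m + 1) → ℝ => Fin.tail ξ := by
    unfold Fin.tail
    fun_prop
  have hW0 : Measurable fun ζ : Fin (m + 1) → ℝ => b (ζ 0) * tw e φ (Fin.tail ζ) :=
    (hb.comp (measurable_pi_apply 0)).mul ((tw_cont e φ).measurable.comp htail)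
  have hW : Measurable fun ξ : Fin (m + 1) → ℝ => b ((V *ᵥ ξ) 0) * tw e φ (Fin.tail (V *ᵥ ξ)) :=
    hW0.comp (mulVec_cont V).measurable
  have h1 := lint_rot U hU _ hW g hg hz q hq0.le
  refine h1.trans ?_
  set g' : (Fin (m + 1) → ℝ) → ℂ := fun ζ => g (MM U *ᵥ ζ) * b (((m : ℝ) + 1) * ζ 0) with hg'
  have hg'm : Measurable g' := (hg.comp (mulVec_cont (MM U)).measurable).mul (hb.comp (by fun_prop))
  have e2 : ∀ ζ : Fin (m + 1) → ℝ, g (MM U *ᵥ ζ) *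
      (b ((V *ᵥ (MM U *ᵥ ζ)) 0) * tw e φ (Fin.tail (V *ᵥ (MM U *ᵥ ζ)))) =
      g' ζ * tw e (scB ((m : ℝ) + 1) φ) (Fin.tail ζ) := by
    intro ζ
    have h2 : V *ᵥ (MM U *ᵥ ζ) = ((m : ℝ) + 1) • ζ := by
      rw [MM_mulVec, mulVec_smul, mulVec_mulVec, hUd, hVV, one_mulVec]
    rw [h2, tw_scB]
    simp only [hg', Pi.smul_apply, smul_eq_mul]
    rw [mul_assoc]
    rfl
  simp only [e2]
  have hb1e : ∀ u, ‖b u‖ₑ ≤ 1 := by
    intro u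
    rw [← ofReal_norm, ← ENNReal.ofReal_one]
    exact ENNReal.ofReal_le_ofReal (hb1 u)
  have hone : (1 : ℝ≥0∞) ≤ ENNReal.ofReal (((m : ℝ) + 1) ^ 2) := by
    rw [← ENNReal.ofReal_one]
    apply ENNReal.ofReal_le_ofReal
    exact one_le_pow₀ (by linarith)
  have hg'0 : ∀ u (v : Fin m → ℝ), v ∉ BA 1 m → g' (Fin.cons u v) = 0 := by
    intro u v hv
    have h2 : g (MM U *ᵥ (Fin.cons u v : Fin (m + 1) → ℝ)) = 0 := by
      apply hz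
      intro hc
      apply hv
      have h3 := MM_cube U hU _ hc
      exact ⟨fun i => by simpa using h3.1 i.succ, fun i => by simpa using h3.2 i.succ⟩
    simp only [hg', h2, zero_mul]
  have hBv : volume (BA 1 m) = 2 ^ m := BA1_vol
  have hmain := hC D e (scB ((m : ℝ) + 1) φ) (Dg_scB _ hφ) g' hg'm
    (2 ^ (m + 1) * (ENNReal.ofReal (((m : ℝ) + 1) ^ 2) * K))
    (ENNReal.mul_ne_top h2t (ENNReal.mul_ne_top ENNReal.ofReal_ne_top hK)) (by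
      apply mix_le p hp2 g' hg'm (BA 1 m) measurableSet_Icc _ hg'0
      · calc ∫⁻ ζ, ‖g' ζ‖ₑ ^ p ≤ ∫⁻ ζ, ‖g (MM U *ᵥ ζ)‖ₑ ^ p := by
              apply lintegral_mono
              intro ζ
              apply ENNReal.rpow_le_rpow _ hp0.le
              simp only [hg', enorm_mul]
              calc _ ≤ ‖g (MM U *ᵥ ζ)‖ₑ * 1 := mul_le_mul' le_rfl (hb1e _)
                _ = _ := mul_one _
          _ ≤ K ^ p := (nrm_rot U hU p (fun ξ => ‖g ξ‖ₑ) hg.enorm).trans hN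
          _ ≤ _ := by
              apply ENNReal.rpow_le_rpow _ hp0.le
              calc K = 1 * K := (one_mul K).symm
                _ ≤ _ := mul_le_mul' hone le_rfl
      · rw [hBv, pow_succ]
        calc (2 : ℝ≥0∞) ^ m = 2 ^ m * 1 := (mul_one _).symm
          _ ≤ _ := mul_le_mul' le_rfl (by norm_num)) (by
      intro h
      set hh : Fin (m + 1) → ℝ := Fin.cons 0 h with hhd
      have e3 : ∀ u (v : Fin m → ℝ), g' (Fin.cons u (v + h)) - g' (Fin.cons u v) =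
          (fun ζ => g' (ζ + hh) - g' ζ) (Fin.cons u v) := by
        intro u v
        simp only
        rw [cons_add]
      simp only [e3]
      rw [mul_assoc]
      have hSm : MeasurableSet (BA 1 m ∪ {v : Fin m → ℝ | v + h ∈ BA 1 m}) :=
        measurableSet_Icc.union ((measurable_id.add_const h) measurableSet_Icc)
      refine mix_le p hp2 (fun ζ => g' (ζ + hh) - g' ζ)
        ((hg'm.comp (measurable_id.add_const _)).sub hg'm)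
        (BA 1 m ∪ {v : Fin m → ℝ | v + h ∈ BA 1 m}) hSm ?_ ?_ _ ?_
      · refine (measure_union_le _ _).trans ?_
        have e4 : volume {v : Fin m → ℝ | v + h ∈ BA 1 m} = volume (BA 1 m) :=
          measure_preimage_add_right volume h (BA 1 m)
        rw [e4, hBv, pow_succ]
        apply le_of_eq
        ring
      · intro u v hv
        simp only [mem_union, mem_ofPred_eq, not_or] at hv
        show g' (Fin.cons u v + hh) - g' (Fin.cons u v) = 0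
        rw [hhd, ← cons_add, hg'0 u v hv.1, hg'0 u (v + h) hv.2, sub_zero]
      · have hdiff : ∀ ζ, g' (ζ + hh) - g' ζ = (g (MM U *ᵥ (ζ + hh)) - g (MM U *ᵥ ζ)) *
            b (((m : ℝ) + 1) * ζ 0) := by
          intro ζ
          simp only [hg']
          have : (ζ + hh) 0 = ζ 0 := by simp [hhd]
          rw [this]
          ring
        calc ∫⁻ ζ, ‖g' (ζ + hh) - g' ζ‖ₑ ^ p ≤
            ∫⁻ ζ, ‖g (MM U *ᵥ (ζ + hh)) - g (MM U *ᵥ ζ)‖ₑ ^ p := by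
              apply lintegral_mono
              intro ζ
              apply ENNReal.rpow_le_rpow _ hp0.le
              rw [hdiff, enorm_mul]
              calc _ ≤ ‖g (MM U *ᵥ (ζ + hh)) - g (MM U *ᵥ ζ)‖ₑ * 1 := mul_le_mul' le_rfl (hb1e _)
                _ = _ := mul_one _
          _ ≤ (ENNReal.ofReal (((m : ℝ) + 1) ^ 2) * K * ENNReal.ofReal (‖hh‖ ^ s)) ^ p :=
              reg_rot U hU p s hp0.le hs0 hs1 g hg K hM hh
          _ ≤ _ := by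
              apply ENNReal.rpow_le_rpow _ hp0.le
              apply mul_le_mul' le_rfl
              apply ENNReal.ofReal_le_ofReal
              exact Real.rpow_le_rpow (norm_nonneg _) (cons_norm h) hs0)
  refine (mul_le_mul_right hmain _).trans (le_of_eq ?_)
  rw [← ENNReal.mul_rpow_of_nonneg _ _ hq0.le]
  congr 1
  ring

/-- **one rough coordinate, rotated, mixed norms** -/
theorem roughV (m J I : ℕ) (hm : 0 < m) (q p s : ℝ) (hs : (m : ℝ) / ((m + 1) * q) < s)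
    (hs1 : s ≤ 1) (hq : 2 * ((m : ℝ) + 2) / (m + 1) < q)
    (hp2 : 2 ≤ p) (hp : ((m : ℝ) + 1) * q < p * ((m + 1) * (q - 1) - 2)) : ∃ C : ℝ≥0,
    ∀ (D : ℕ) (e : Ix J I m) (φ : Bk J I), Dg D φ →
    ∀ V : Matrix (Fin (m + 1)) (Fin (m + 1)) ℝ, Vᵀ * V = 1 →
    ∀ G : (Fin (m + 1) → ℝ) → ℂ, Measurable G → (∀ ξ, ξ ∉ BA 1 (m + 1) → G (V *ᵥ ξ) = 0) →
    ∀ K : ℝ≥0∞, K ≠ ∞ →
    ∫⁻ v : Fin m → ℝ, (∫⁻ u : ℝ, ‖G (Fin.cons u v)‖ₑ ^ p) ^ (2 / p) ≤ K ^ 2 →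
    (∀ h : Fin m → ℝ, ∫⁻ v : Fin m → ℝ, (∫⁻ u : ℝ,
      ‖G (Fin.cons u (v + h)) - G (Fin.cons u v)‖ₑ ^ p) ^ (2 / p) ≤
        (K * ENNReal.ofReal (‖h‖ ^ s)) ^ 2) →
    ∫⁻ y : (Fin (m + 1) → ℝ) × ℝ, ‖Pool.Agent.H728R3.SR.ext
      (fun ξ => G (V *ᵥ ξ) * tw e φ (Fin.tail (V *ᵥ ξ))) y‖ₑ ^ q ≤
        (C * cD D * K) ^ q := by
  obtain ⟨C, hC⟩ := roughE m J I hm q p s hs hs1 hq hp2 hp
  have hm0 : (0 : ℝ) ≤ m := Nat.cast_nonneg m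
  have hm1 : (0 : ℝ) < m := by exact_mod_cast hm
  have hq0 : 0 < q := lt_trans (by positivity) hq
  have hp0 : 0 < p := by linarith
  have hs0 : 0 ≤ s := (lt_of_le_of_lt (by positivity) hs).le
  have hDt : ENNReal.ofReal (((m : ℝ) + 1) ^ (m + 1)) * (C : ℝ≥0∞) *
      ENNReal.ofReal ((m : ℝ) + 1) ≠ ∞ :=
    ENNReal.mul_ne_top (ENNReal.mul_ne_top ENNReal.ofReal_ne_top ENNReal.coe_ne_top)
      ENNReal.ofReal_ne_top
  refine ⟨(ENNReal.ofReal (((m : ℝ) + 1) ^ (m + 1)) * (C : ℝ≥0∞) *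
      ENNReal.ofReal ((m : ℝ) + 1)).toNNReal, ?_⟩
  intro D e φ hφ V hV G hG hz K hK hN hM
  rw [ENNReal.coe_toNNReal hDt]
  set U : Matrix (Fin (m + 1)) (Fin (m + 1)) ℝ := Vᵀ with hUd
  have hVV : V * Vᵀ = 1 := mul_eq_one_comm.mp hV
  have hU : Uᵀ * U = 1 := by rw [hUd, transpose_transpose, hVV]
  have htail : Measurable fun ξ : Fin (m + 1) → ℝ => Fin.tail ξ := by
    unfold Fin.tail
    fun_prop
  have hW0 : Measurable fun ζ : Fin (m + 1) → ℝ => tw e φ (Fin.tail ζ) :=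
    (tw_cont e φ).measurable.comp htail
  have hW : Measurable fun ξ : Fin (m + 1) → ℝ => tw e φ (Fin.tail (V *ᵥ ξ)) :=
    hW0.comp (Pool.Agent.Y247.QT.mulVec_cont V).measurable
  have hGV : Measurable fun ξ : Fin (m + 1) → ℝ => G (V *ᵥ ξ) :=
    hG.comp (Pool.Agent.Y247.QT.mulVec_cont V).measurable
  have h1 := lint_rot U hU _ hW (fun ξ => G (V *ᵥ ξ)) hGV hz q hq0.le
  refine h1.trans ?_
  set g' : (Fin (m + 1) → ℝ) → ℂ := fun ζ => G (((m : ℝ) + 1) • ζ) with hg'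
  have hg'm : Measurable g' := hG.comp (measurable_const_smul _)
  have e2 : ∀ ζ : Fin (m + 1) → ℝ, G (V *ᵥ (Pool.Agent.Y247.QT.MM U *ᵥ ζ)) *
      tw e φ (Fin.tail (V *ᵥ (Pool.Agent.Y247.QT.MM U *ᵥ ζ))) =
      g' ζ * tw e (scB ((m : ℝ) + 1) φ) (Fin.tail ζ) := by
    intro ζ
    have h2 : V *ᵥ (Pool.Agent.Y247.QT.MM U *ᵥ ζ) = ((m : ℝ) + 1) • ζ := by
      rw [Pool.Agent.Y247.QT.MM_mulVec, mulVec_smul, mulVec_mulVec, hUd, hVV, one_mulVec]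
    rw [h2, tw_scB]
    rfl
  simp only [e2]
  have hone : (1 : ℝ≥0∞) ≤ ENNReal.ofReal ((m : ℝ) + 1) := by
    rw [← ENNReal.ofReal_one]
    exact ENNReal.ofReal_le_ofReal (by linarith)
  have hmain := hC D e (scB ((m : ℝ) + 1) φ) (Dg_scB _ hφ) g' hg'm
    (ENNReal.ofReal ((m : ℝ) + 1) * K) (ENNReal.mul_ne_top ENNReal.ofReal_ne_top hK) (by
      refine (mix_scale m p hp0 (fun ζ => ‖G ζ‖ₑ) hG.enorm).trans (hN.trans ?_)
      apply pow_le_pow_left'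
      calc K = 1 * K := (one_mul K).symm
        _ ≤ _ := mul_le_mul' hone le_rfl) (by
      intro h
      have e3 : ∀ u (v : Fin m → ℝ), g' (Fin.cons u (v + h)) - g' (Fin.cons u v) =
          (fun ζ => G (ζ + Fin.cons 0 (((m : ℝ) + 1) • h)) - G ζ)
            (((m : ℝ) + 1) • (Fin.cons u v : Fin (m + 1) → ℝ)) := by
        intro u v
        simp only [hg']
        congr 2
        ext i
        refine Fin.cases ?_ (fun i => ?_) i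
        · simp
        · simp
          ring
      simp only [e3]
      have hdm : Measurable fun ζ : Fin (m + 1) → ℝ =>
          ‖G (ζ + (Fin.cons 0 (((m : ℝ) + 1) • h) : Fin (m + 1) → ℝ)) - G ζ‖ₑ :=
        ((hG.comp (measurable_id.add_const _)).sub hG).enorm
      have h4 := mix_scale m p hp0 (fun ζ : Fin (m + 1) → ℝ =>
        ‖G (ζ + (Fin.cons 0 (((m : ℝ) + 1) • h) : Fin (m + 1) → ℝ)) - G ζ‖ₑ) hdm
      refine h4.trans ?_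
      simp only [← Pool.Agent.Y247.QT.cons_add]
      refine (hM (((m : ℝ) + 1) • h)).trans ?_
      apply pow_le_pow_left'
      rw [mul_comm (ENNReal.ofReal ((m : ℝ) + 1)) K, mul_assoc]
      apply mul_le_mul' le_rfl
      rw [← ENNReal.ofReal_mul (by positivity)]
      apply ENNReal.ofReal_le_ofReal
      rw [norm_smul, Real.norm_eq_abs, abs_of_nonneg (by positivity),
        Real.mul_rpow (by positivity) (norm_nonneg _)]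
      gcongr
      calc ((m : ℝ) + 1) ^ s ≤ ((m : ℝ) + 1) ^ (1 : ℝ) :=
            Real.rpow_le_rpow_of_exponent_le (by linarith) hs1
        _ = _ := Real.rpow_one _)
  refine (mul_le_mul_right hmain _).trans (le_of_eq ?_)
  rw [← ENNReal.mul_rpow_of_nonneg _ _ hq0.le]
  congr 1
  ring

/-- **one rough coordinate, involutions** -/
theorem roughI (m : ℕ) (hm : 0 < m) (q p s : ℝ) (hs : (m : ℝ) / ((m + 1) * q) < s)
    (hs1 : s ≤ 1) (hq : 2 * ((m : ℝ) + 2) / (m + 1) < q)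
    (hp2 : 2 ≤ p) (hp : ((m : ℝ) + 1) * q < p * ((m + 1) * (q - 1) - 2)) : ∃ C : ℝ≥0,
    ∀ (D : ℕ) (σ : Fin m → Fin m), (∀ i, σ (σ i) = i) →
    ∀ P : Fin m → Poly, (∀ i, (P i).totalDegree ≤ D) →
    ∀ V : Matrix (Fin (m + 1)) (Fin (m + 1)) ℝ, Vᵀ * V = 1 →
    ∀ G : (Fin (m + 1) → ℝ) → ℂ, Measurable G → (∀ ξ, ξ ∉ BA 1 (m + 1) → G (V *ᵥ ξ) = 0) →
    ∀ K : ℝ≥0∞, K ≠ ∞ →
    ∫⁻ v : Fin m → ℝ, (∫⁻ u : ℝ, ‖G (Fin.cons u v)‖ₑ ^ p) ^ (2 / p) ≤ K ^ 2 →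
    (∀ h : Fin m → ℝ, ∫⁻ v : Fin m → ℝ, (∫⁻ u : ℝ,
      ‖G (Fin.cons u (v + h)) - G (Fin.cons u v)‖ₑ ^ p) ^ (2 / p) ≤
        (K * ENNReal.ofReal (‖h‖ ^ s)) ^ 2) →
    ∫⁻ y : (Fin (m + 1) → ℝ) × ℝ, ‖Pool.Agent.H728R3.SR.ext (fun ξ => G (V *ᵥ ξ) *
      cexp (Complex.I * (phase σ P (Fin.tail (V *ᵥ ξ)) : ℂ))) y‖ₑ ^ q ≤
        (C * cD D * K) ^ q := by
  choose C hC using fun J I => roughV m J I hm q p s hs hs1 hq hp2 hp
  have hq0 : 0 < q := lt_trans (by positivity) hq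
  refine ⟨∑ J ∈ Finset.range (m + 2), ∑ I ∈ Finset.range (m + 2), C J I, ?_⟩
  intro D σ hσ P hP V hV G hG hz K hK hN hM
  obtain ⟨J, I, e, h1, h2⟩ := inv_equiv σ hσ
  obtain ⟨φ, hφ, hφ2⟩ := phase_tw σ hσ e h1 h2 D P hP
  have hcard := card_eq e
  have h3 := hC J I D e φ hφ V hV G hG hz K hK hN hM
  simp only [hφ2]
  refine h3.trans ?_
  apply ENNReal.rpow_le_rpow _ hq0.le
  refine mul_le_mul' (mul_le_mul' ?_ le_rfl) le_rfl
  have h4 : C J I ≤ ∑ J ∈ Finset.range (m + 2), ∑ I ∈ Finset.range (m + 2), C J I := by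
    refine le_trans ?_ (Finset.single_le_sum (f := fun J => ∑ I ∈ Finset.range (m + 2), C J I)
      (fun _ _ => zero_le) (Finset.mem_range.mpr (show J < m + 2 by omega)))
    exact Finset.single_le_sum (f := fun I => C J I) (fun _ _ => zero_le)
      (Finset.mem_range.mpr (show I < m + 2 by omega))
  exact_mod_cast h4

/-- one rough coordinate, regularity in `L^p`, involutions -/
theorem roughRI (m : ℕ) (hm : 0 < m) (q p s : ℝ) (hs : (m : ℝ) / ((m + 1) * q) < s)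
    (hs1 : s ≤ 1) (hq : 2 * ((m : ℝ) + 2) / (m + 1) < q)
    (hp2 : 2 ≤ p) (hp : ((m : ℝ) + 1) * q < p * ((m + 1) * (q - 1) - 2)) : ∃ C : ℝ≥0,
    ∀ (D : ℕ) (σ : Fin m → Fin m), (∀ i, σ (σ i) = i) →
    ∀ P : Fin m → Poly, (∀ i, (P i).totalDegree ≤ D) →
    ∀ V : Matrix (Fin (m + 1)) (Fin (m + 1)) ℝ, Vᵀ * V = 1 →
    ∀ b : ℝ → ℂ, Measurable b → (∀ u, ‖b u‖ ≤ 1) →
    ∀ g : (Fin (m + 1) → ℝ) → ℂ, Measurable g → (∀ ξ, ξ ∉ BA 1 (m + 1) → g ξ = 0) →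
    ∀ K : ℝ≥0∞, K ≠ ∞ → (∫⁻ ξ, ‖g ξ‖ₑ ^ p ≤ K ^ p) →
    (∀ h : Fin (m + 1) → ℝ, ∫⁻ ξ, ‖g (ξ + h) - g ξ‖ₑ ^ p ≤
      (K * ENNReal.ofReal (‖h‖ ^ s)) ^ p) →
    ∫⁻ y : (Fin (m + 1) → ℝ) × ℝ, ‖Pool.Agent.H728R3.SR.ext (fun ξ => g ξ *
      (b ((V *ᵥ ξ) 0) * cexp (Complex.I * (phase σ P (Fin.tail (V *ᵥ ξ)) : ℂ)))) y‖ₑ ^ q ≤
        (C * cD D * K) ^ q := by
  choose C hC using fun J I => roughR m J I hm q p s hs hs1 hq hp2 hp
  have hq0 : 0 < q := lt_trans (by positivity) hq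
  refine ⟨∑ J ∈ Finset.range (m + 2), ∑ I ∈ Finset.range (m + 2), C J I, ?_⟩
  intro D σ hσ P hP V hV b hb hb1 g hg hz K hK hN hM
  obtain ⟨J, I, e, h1, h2⟩ := inv_equiv σ hσ
  obtain ⟨φ, hφ, hφ2⟩ := phase_tw σ hσ e h1 h2 D P hP
  have hcard := card_eq e
  have h3 := hC J I D e φ hφ V hV b hb hb1 g hg hz K hK hN hM
  simp only [hφ2]
  refine h3.trans ?_
  apply ENNReal.rpow_le_rpow _ hq0.le
  refine mul_le_mul' (mul_le_mul' ?_ le_rfl) le_rfl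
  have h4 : C J I ≤ ∑ J ∈ Finset.range (m + 2), ∑ I ∈ Finset.range (m + 2), C J I := by
    refine le_trans ?_ (Finset.single_le_sum (f := fun J => ∑ I ∈ Finset.range (m + 2), C J I)
      (fun _ _ => zero_le) (Finset.mem_range.mpr (show J < m + 2 by omega)))
    exact Finset.single_le_sum (f := fun I => C J I) (fun _ _ => zero_le)
      (Finset.mem_range.mpr (show I < m + 2 by omega))
  exact_mod_cast h4

/-- **bounded functions of bounded variation** -/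
theorem bvI (m : ℕ) (hm : 0 < m) (q : ℝ) (hq : 2 * ((m : ℝ) + 2) / (m + 1) < q) : ∃ C : ℝ≥0,
    ∀ (D : ℕ) (σ : Fin m → Fin m), (∀ i, σ (σ i) = i) →
    ∀ P : Fin m → Poly, (∀ i, (P i).totalDegree ≤ D) →
    ∀ V : Matrix (Fin (m + 1)) (Fin (m + 1)) ℝ, Vᵀ * V = 1 →
    ∀ b : ℝ → ℂ, Measurable b → (∀ u, ‖b u‖ ≤ 1) →
    ∀ g : (Fin (m + 1) → ℝ) → ℂ, Measurable g → (∀ ξ, ξ ∉ BA 1 (m + 1) → g ξ = 0) →
    (∀ ξ, ‖g ξ‖ ≤ 1) → ∀ W : ℝ≥0, 1 ≤ W →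
    (∀ h : Fin (m + 1) → ℝ, ∫⁻ ξ, ‖g (ξ + h) - g ξ‖ₑ ≤ W * ENNReal.ofReal ‖h‖) →
    ∫⁻ y : (Fin (m + 1) → ℝ) × ℝ, ‖Pool.Agent.H728R3.SR.ext (fun ξ => g ξ *
      (b ((V *ᵥ ξ) 0) * cexp (Complex.I * (phase σ P (Fin.tail (V *ᵥ ξ)) : ℂ)))) y‖ₑ ^ q ≤
        (C * cD D * (W : ℝ≥0∞) ^ ((m : ℝ) / (2 * (m + 2)))) ^ q := by
  have hm0 : (1 : ℝ) ≤ m := by exact_mod_cast hm
  set p : ℝ := 2 * (m + 2) / m with hpd
  have hmp : (0 : ℝ) < m := by linarith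
  have hpm : p * m = 2 * (m + 2) := by
    rw [hpd]
    field_simp
  have hp2 : 2 ≤ p := by
    rw [hpd, le_div_iff₀ hmp]
    linarith
  have hp : ((m : ℝ) + 1) * q < p * ((m + 1) * (q - 1) - 2) := by
    rw [div_lt_iff₀ (by linarith)] at hq
    rw [hpd, div_mul_eq_mul_div, lt_div_iff₀ hmp]
    nlinarith
  set s : ℝ := (m : ℝ) / (2 * (m + 2)) with hs
  have hsp : s * p = 1 := by
    rw [hs, hpd]
    field_simp
  have hs0 : 0 ≤ s := by positivity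
  have hs1 : s ≤ 1 := by
    rw [hs, div_le_one (by positivity)]
    linarith
  have hq0 : 0 < q := lt_trans (by positivity) hq
  have hss : (m : ℝ) / ((m + 1) * q) < s := by
    rw [hs]
    rw [div_lt_iff₀ (by linarith)] at hq
    apply div_lt_div_of_pos_left hmp (by positivity)
    linarith
  have hp0 : 0 ≤ p := by linarith
  obtain ⟨C, hC⟩ := roughRI m hm q p s hss hs1 hq hp2 hp
  have hc2 : ((2 : ℝ≥0∞) ^ (m + 1)) ≠ ∞ := ENNReal.pow_ne_top (by norm_num)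
  refine ⟨C * 2 ^ (m + 1), ?_⟩
  intro D σ hσ P hP V hV b hb hb1 g hg hz hbd W hW hM
  have hWt : (W : ℝ≥0∞) ^ s ≠ ∞ := ENNReal.rpow_ne_top_of_nonneg hs0 ENNReal.coe_ne_top
  set K : ℝ≥0∞ := 2 ^ (m + 1) * (W : ℝ≥0∞) ^ s with hK
  have hKt : K ≠ ∞ := ENNReal.mul_ne_top hc2 hWt
  have hKp : K ^ p = (2 ^ (m + 1)) ^ p * W := by
    rw [hK, ENNReal.mul_rpow_of_nonneg _ _ hp0, ← ENNReal.rpow_mul, hsp, ENNReal.rpow_one]
  have hWe : (1 : ℝ≥0∞) ≤ W := by exact_mod_cast hW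
  have hbe : ∀ ξ, ‖g ξ‖ₑ ≤ 1 := by
    intro ξ
    rw [← ofReal_norm, ← ENNReal.ofReal_one]
    exact ENNReal.ofReal_le_ofReal (hbd ξ)
  have hcm : MeasurableSet (BA 1 (m + 1)) := measurableSet_Icc
  have hcv : volume (BA 1 (m + 1)) = 2 ^ (m + 1) := BA1_vol
  have h1le : (1 : ℝ≥0∞) ≤ 2 ^ (m + 1) := one_le_pow₀ (by norm_num)
  have hN : ∫⁻ ξ, ‖g ξ‖ₑ ^ p ≤ K ^ p := by
    calc ∫⁻ ξ, ‖g ξ‖ₑ ^ p ≤ ∫⁻ ξ, (BA 1 (m + 1)).indicator (fun _ => (1 : ℝ≥0∞)) ξ := by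
          apply lintegral_mono
          intro ξ
          simp only
          by_cases h : ξ ∈ BA 1 (m + 1)
          · rw [indicator_of_mem h]
            exact ENNReal.rpow_le_one (hbe ξ) hp0
          · rw [indicator_of_notMem h, hz ξ h, enorm_zero, ENNReal.zero_rpow_of_pos (by linarith)]
      _ = 2 ^ (m + 1) := by
          rw [lintegral_indicator hcm, lintegral_const, Measure.restrict_apply_univ, one_mul, hcv]
      _ ≤ (2 ^ (m + 1)) ^ p * 1 := by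
          rw [mul_one]
          calc (2 : ℝ≥0∞) ^ (m + 1) = (2 ^ (m + 1)) ^ (1 : ℝ) := (ENNReal.rpow_one _).symm
            _ ≤ _ := ENNReal.rpow_le_rpow_of_exponent_le h1le (by linarith)
      _ ≤ (2 ^ (m + 1)) ^ p * W := by gcongr
      _ = _ := hKp.symm
  have hM' : ∀ h : Fin (m + 1) → ℝ, ∫⁻ ξ, ‖g (ξ + h) - g ξ‖ₑ ^ p ≤
        (K * ENNReal.ofReal (‖h‖ ^ s)) ^ p := by
    intro h
    have e0 : ENNReal.ofReal (‖h‖ ^ s) ^ p = ENNReal.ofReal ‖h‖ := by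
      rw [ENNReal.ofReal_rpow_of_nonneg (by positivity) hp0, ← Real.rpow_mul (norm_nonneg _), hsp,
        Real.rpow_one]
    have h2 : ∀ ξ, ‖g (ξ + h) - g ξ‖ₑ ^ p ≤ (2 : ℝ≥0∞) ^ (p - 1) * ‖g (ξ + h) - g ξ‖ₑ := by
      intro ξ
      have h3 : ‖g (ξ + h) - g ξ‖ₑ ≤ 2 := by
        refine (enorm_sub_le).trans ?_
        calc ‖g (ξ + h)‖ₑ + ‖g ξ‖ₑ ≤ 1 + 1 := add_le_add (hbe _) (hbe _)
          _ = 2 := by norm_num
      calc ‖g (ξ + h) - g ξ‖ₑ ^ p = ‖g (ξ + h) - g ξ‖ₑ ^ ((p - 1) + 1) := by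
            congr 1
            ring
        _ = ‖g (ξ + h) - g ξ‖ₑ ^ (p - 1) * ‖g (ξ + h) - g ξ‖ₑ := by
            rw [ENNReal.rpow_add_of_nonneg _ _ (by linarith) zero_le_one, ENNReal.rpow_one]
        _ ≤ _ := by
            gcongr
            linarith
    have h2t : (2 : ℝ≥0∞) ^ (p - 1) ≠ ∞ :=
      ENNReal.rpow_ne_top_of_nonneg (by linarith) (by norm_num)
    calc ∫⁻ ξ, ‖g (ξ + h) - g ξ‖ₑ ^ p ≤ ∫⁻ ξ, (2 : ℝ≥0∞) ^ (p - 1) * ‖g (ξ + h) - g ξ‖ₑ :=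
          lintegral_mono h2
      _ = (2 : ℝ≥0∞) ^ (p - 1) * ∫⁻ ξ, ‖g (ξ + h) - g ξ‖ₑ := lintegral_const_mul' _ _ h2t
      _ ≤ (2 ^ (m + 1)) ^ p * (W * ENNReal.ofReal ‖h‖) := by
          refine mul_le_mul' ?_ (hM h)
          calc (2 : ℝ≥0∞) ^ (p - 1) ≤ 2 ^ p :=
                ENNReal.rpow_le_rpow_of_exponent_le (by norm_num) (by linarith)
            _ ≤ _ := by
                apply ENNReal.rpow_le_rpow _ hp0
                calc (2 : ℝ≥0∞) = 2 ^ 1 := (pow_one _).symm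
                  _ ≤ _ := pow_le_pow_right₀ (by norm_num) (by omega)
      _ = _ := by
          rw [ENNReal.mul_rpow_of_nonneg _ _ hp0, e0, hKp]
          ring
  refine (hC D σ hσ P hP V hV b hb hb1 g hg hz K hKt hN hM').trans (le_of_eq ?_)
  rw [hK]
  push_cast
  congr 1
  ring

end Pool.Agent.Y183.PS
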