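import Pool.Agent.Y183.PS.W
set_option autoImplicit false

/-! Smooth and analytic phases: the sharp regularity. -/

namespace Pool.Agent.Y183.PS

open MeasureTheory Set Filter Topology Complex Matrix
open scoped ENNReal NNReal
open Pool.Agent.Y183.PP (Poly ev)
open Pool.Agent.Y183.LS (BA)
open Pool.Agent.Y183.PQ (cD cD_one cD_top)
open Pool.Agent.Y183.PR

/-- **smooth phases**: the loss is an arbitrarily small power -/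
theorem smoothEps (m : ℕ) (q s : ℝ) (hs0 : 0 ≤ s) (hs1 : s ≤ 1)
    (hq : 2 * (((m + 1 : ℕ) : ℝ) + 1) / ((m + 1 : ℕ) : ℝ) < q)
    (hs : (((m + 1 : ℕ) : ℝ) + 2) / q - ((m + 1 : ℕ) : ℝ) / 2 < s)
    (σ : Fin (m + 1) → Fin (m + 1)) (hσ : ∀ i, σ (σ i) = i)
    (φ : Fin (m + 1) → ℝ × ℝ → ℝ) (hφ : ∀ i, ContDiff ℝ (⊤ : ℕ∞) (φ i)) (ε : ℝ) (hε : 0 < ε) :
    ∃ C : ℝ≥0, ∀ l : ℝ, 1 ≤ l →
    ∀ V : Matrix (Fin (m + 1)) (Fin (m + 1)) ℝ, Vᵀ * V = 1 →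
    ∀ g : (Fin (m + 1) → ℝ) → ℂ, Measurable g → (∀ ξ, ξ ∉ BA 1 (m + 1) → g ξ = 0) →
    ∀ K : ℝ≥0∞, K ≠ ∞ → ∫⁻ ξ, ‖g ξ‖ₑ ^ 2 ≤ K ^ 2 →
    (∀ h : Fin (m + 1) → ℝ, ∫⁻ ξ, ‖g (ξ + h) - g ξ‖ₑ ^ 2 ≤
      (K * ENNReal.ofReal (‖h‖ ^ s)) ^ 2) →
    ∫⁻ y : (Fin (m + 1) → ℝ) × ℝ, ‖Pool.Agent.H728R3.SR.ext
      (fun ξ => g ξ * cexp (Complex.I * (l * phF σ φ (V *ᵥ ξ) : ℝ))) y‖ₑ ^ q ≤
        (C * ENNReal.ofReal (l ^ ε) * K) ^ q := by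
  obtain ⟨C, hC⟩ := smoothFull m q s hs0 hs1 hq hs
  have hq0 : 0 < q := lt_trans (by positivity) hq
  obtain ⟨k, hk⟩ := exists_nat_gt (((m : ℝ) + 2) / ε)
  have hk1 : ((m : ℝ) + 2) / ((k : ℝ) + 1) ≤ ε := by
    rw [div_lt_iff₀ hε] at hk
    rw [div_le_iff₀ (by positivity)]
    nlinarith
  obtain ⟨M, hM, hMb⟩ := der_bd φ hφ (k + 1) (m + 3)
  set c : ℝ := (1 + (M / k.factorial) ^ (1 / ((k : ℝ) + 1))) ^ (m + 2) with hc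
  have hc0 : 0 ≤ c := by positivity
  have hcD : cD k ≠ ∞ := cD_top k
  refine ⟨C * (cD k).toNNReal * c.toNNReal, ?_⟩
  intro l hl V hV g hg hz K hK hN hR
  have hl0 : 0 ≤ l := by linarith
  have h := hC k (l * M) (by positivity) σ hσ (fun i x => l * φ i x) (fun i => by
    have h1 : ContDiff ℝ ((k + 1 : ℕ) : WithTop ℕ∞) (φ i) := (hφ i).of_le (by exact_mod_cast le_top)
    exact contDiff_const.mul h1) (fun i x hx1 hx2 => by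
    have h1 : ContDiff ℝ ((k + 1 : ℕ) : WithTop ℕ∞) (φ i) := (hφ i).of_le (by exact_mod_cast le_top)
    rw [der_mul hl0 h1]
    exact mul_le_mul_of_nonneg_left (hMb i x hx1 hx2) hl0) V hV g hg hz K hK hN hR
  simp only [phF_mul] at h
  refine h.trans ?_
  apply ENNReal.rpow_le_rpow _ hq0.le
  have h2 := size_smooth m k M l ε hM hl hk1
  have h3 : ENNReal.ofReal ((1 + (l * M / k.factorial) ^ (1 / ((k : ℝ) + 1))) ^ (m + 2)) ≤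
      ENNReal.ofReal (l ^ ε) * (c.toNNReal : ℝ≥0∞) := by
    have e2 : (c.toNNReal : ℝ≥0∞) = ENNReal.ofReal c := rfl
    rw [e2, ← ENNReal.ofReal_mul (by positivity)]
    exact ENNReal.ofReal_le_ofReal h2
  calc _ ≤ (C : ℝ≥0∞) * cD k * (ENNReal.ofReal (l ^ ε) * (c.toNNReal : ℝ≥0∞)) * K := by
        gcongr
    _ = _ := by
        rw [ENNReal.coe_mul, ENNReal.coe_mul, ENNReal.coe_toNNReal hcD]
        ring

/-- **analytic phases**: the loss is a power of the logarithm -/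
theorem analyticLog (m : ℕ) (q s : ℝ) (hs0 : 0 ≤ s) (hs1 : s ≤ 1)
    (hq : 2 * (((m + 1 : ℕ) : ℝ) + 1) / ((m + 1 : ℕ) : ℝ) < q)
    (hs : (((m + 1 : ℕ) : ℝ) + 2) / q - ((m + 1 : ℕ) : ℝ) / 2 < s) :
    ∃ C : ℝ≥0, ∀ A R : ℝ, 1 ≤ A → 0 ≤ R →
    ∀ σ : Fin (m + 1) → Fin (m + 1), (∀ i, σ (σ i) = i) →
    ∀ φ : Fin (m + 1) → ℝ × ℝ → ℝ, (∀ i, ContDiff ℝ (⊤ : ℕ∞) (φ i)) →
    (∀ i, ∀ k : ℕ, ∀ x : ℝ × ℝ, |x.1| ≤ m + 3 → |x.2| ≤ m + 3 →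
      ‖iteratedFDeriv ℝ k (φ i) x‖ ≤ A * R ^ k * k.factorial) →
    ∀ l : ℝ, 1 ≤ l →
    ∀ V : Matrix (Fin (m + 1)) (Fin (m + 1)) ℝ, Vᵀ * V = 1 →
    ∀ g : (Fin (m + 1) → ℝ) → ℂ, Measurable g → (∀ ξ, ξ ∉ BA 1 (m + 1) → g ξ = 0) →
    ∀ K : ℝ≥0∞, K ≠ ∞ → ∫⁻ ξ, ‖g ξ‖ₑ ^ 2 ≤ K ^ 2 →
    (∀ h : Fin (m + 1) → ℝ, ∫⁻ ξ, ‖g (ξ + h) - g ξ‖ₑ ^ 2 ≤
      (K * ENNReal.ofReal (‖h‖ ^ s)) ^ 2) →
    ∫⁻ y : (Fin (m + 1) → ℝ) × ℝ, ‖Pool.Agent.H728R3.SR.ext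
      (fun ξ => g ξ * cexp (Complex.I * (l * phF σ φ (V *ᵥ ξ) : ℝ))) y‖ₑ ^ q ≤
        (C * ENNReal.ofReal ((A * (1 + R)) ^ (m + 2) * (2 + Real.log l) ^ 5) * K) ^ q := by
  obtain ⟨C, hC⟩ := smoothFull m q s hs0 hs1 hq hs
  have hq0 : 0 < q := lt_trans (by positivity) hq
  refine ⟨C * 6 ^ (m + 2), ?_⟩
  intro A R hA hR σ hσ φ hφ hφb l hl V hV g hg hz K hK hN hR'
  have hl0 : 0 ≤ l := by linarith
  have hlog : 0 ≤ Real.log l := Real.log_nonneg hl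
  set k : ℕ := ⌈Real.log l⌉₊ with hk
  have hk1 : Real.log l ≤ k := Nat.le_ceil _
  have hk2 : (k : ℝ) < Real.log l + 1 := Nat.ceil_lt_add_one hlog
  have h := hC k (l * (A * R ^ (k + 1) * (k + 1).factorial)) (by positivity) σ hσ
    (fun i x => l * φ i x) (fun i => by
    have h1 : ContDiff ℝ ((k + 1 : ℕ) : WithTop ℕ∞) (φ i) := (hφ i).of_le (by exact_mod_cast le_top)
    exact contDiff_const.mul h1) (fun i x hx1 hx2 => by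
    have h1 : ContDiff ℝ ((k + 1 : ℕ) : WithTop ℕ∞) (φ i) := (hφ i).of_le (by exact_mod_cast le_top)
    rw [der_mul hl0 h1]
    exact mul_le_mul_of_nonneg_left (hφb i (k + 1) x hx1 hx2) hl0) V hV g hg hz K hK hN hR'
  simp only [phF_mul] at h
  refine h.trans ?_
  apply ENNReal.rpow_le_rpow _ hq0.le
  have h2 := size_an m k A R l hA hR hl hk1
  have h4 : cD k ≤ ENNReal.ofReal ((2 + Real.log l) ^ 5) := by
    unfold Pool.Agent.Y183.PQ.cD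
    apply ENNReal.ofReal_le_ofReal
    apply pow_le_pow_left₀ (by positivity)
    linarith
  have hA0 : 0 ≤ A := by linarith
  calc _ ≤ (C : ℝ≥0∞) * ENNReal.ofReal ((2 + Real.log l) ^ 5) *
        ENNReal.ofReal (6 ^ (m + 2) * (A * (1 + R)) ^ (m + 2)) * K := by
        gcongr
    _ = _ := by
        rw [ENNReal.coe_mul, ENNReal.ofReal_mul (by positivity), ENNReal.ofReal_mul (by positivity)]
        have e6 : ENNReal.ofReal (6 ^ (m + 2)) = (6 : ℝ≥0∞) ^ (m + 2) := by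
          rw [ENNReal.ofReal_pow (by norm_num)]
          norm_num
        rw [e6]
        push_cast
        ring

end Pool.Agent.Y183.PS
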