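import Pool.Agent.Y183.PS.W
set_option autoImplicit false

/-! Smooth phases with a rough variable. -/

namespace Pool.Agent.Y183.PS

open MeasureTheory Set Filter Topology Complex Matrix
open scoped ENNReal NNReal
open Pool.Agent.Y183.PP (Poly ev)
open Pool.Agent.Y183.LS (BA)
open Pool.Agent.Y183.PQ (cD cD_one cD_top)
open Pool.Agent.Y183.PR

/-- Minkowski's inequality, raised to the power two -/
lemma mink (p : ℝ) (hp : 1 ≤ p) {X : Type*} [MeasurableSpace X] (μ : Measure X)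
    (f g : X → ℝ≥0∞) (hf : Measurable f) (hg : Measurable g) (B : ℝ≥0∞) (hB : B ≠ ∞) :
    (∫⁻ x, (f x + g x * B) ^ p ∂μ) ^ (2 / p) ≤
      ((∫⁻ x, f x ^ p ∂μ) ^ (1 / p) + (∫⁻ x, g x ^ p ∂μ) ^ (1 / p) * B) ^ 2 := by
  have hp0 : 0 < p := by linarith
  have h1 := ENNReal.lintegral_Lp_add_le (μ := μ) hf.aemeasurable (hg.mul_const B).aemeasurable hp
  simp only [Pi.add_apply] at h1
  have e1 : (∫⁻ x, (g x * B) ^ p ∂μ) ^ (1 / p) = (∫⁻ x, g x ^ p ∂μ) ^ (1 / p) * B := by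
    have e : ∀ x, (g x * B) ^ p = g x ^ p * B ^ p := fun x => ENNReal.mul_rpow_of_nonneg _ _ hp0.le
    simp only [e]
    rw [lintegral_mul_const' _ _ (ENNReal.rpow_ne_top_of_nonneg hp0.le hB),
      ENNReal.mul_rpow_of_nonneg _ _ (by positivity), ← ENNReal.rpow_mul B,
      mul_one_div_cancel hp0.ne', ENNReal.rpow_one]
  rw [e1] at h1
  have e2 : (∫⁻ x, (f x + g x * B) ^ p ∂μ) ^ (2 / p) =
      ((∫⁻ x, (f x + g x * B) ^ p ∂μ) ^ (1 / p)) ^ 2 := by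
    rw [← ENNReal.rpow_natCast, ← ENNReal.rpow_mul]
    congr 1
    push_cast
    ring
  rw [e2]
  exact pow_le_pow_left' h1 2

/-- the amplitudes of the second case -/
def Am2 (m : ℕ) (p s : ℝ) (V : Matrix (Fin (m + 1)) (Fin (m + 1)) ℝ) (K : ℝ≥0∞)
    (a : (Fin (m + 1) → ℝ) → ℂ) : Prop :=
  ∃ G : (Fin (m + 1) → ℝ) → ℂ, Measurable G ∧ (∀ ξ, ξ ∉ BA 1 (m + 1) → G (V *ᵥ ξ) = 0) ∧
    (∀ ξ, a ξ = G (V *ᵥ ξ)) ∧
    ∫⁻ v : Fin m → ℝ, (∫⁻ u : ℝ, ‖G (Fin.cons u v)‖ₑ ^ p) ^ (2 / p) ≤ K ^ 2 ∧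
    ∀ h : Fin m → ℝ, ∫⁻ v : Fin m → ℝ, (∫⁻ u : ℝ,
      ‖G (Fin.cons u (v + h)) - G (Fin.cons u v)‖ₑ ^ p) ^ (2 / p) ≤
        (K * ENNReal.ofReal (‖h‖ ^ s)) ^ 2

lemma tail_cont {m : ℕ} : Continuous fun ξ : Fin (m + 1) → ℝ => Fin.tail ξ := by
  unfold Fin.tail
  fun_prop

lemma tail_cons {m : ℕ} (u : ℝ) (v : Fin m → ℝ) :
    Fin.tail (Fin.cons u v : Fin (m + 1) → ℝ) = v := by
  ext i
  simp [Fin.tail]

/-- products with Lipschitz functions -/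
lemma Am2_mul (m : ℕ) (p s : ℝ) (hp2 : 2 ≤ p) (hs0 : 0 ≤ s) (hs1 : s ≤ 1)
    (V : Matrix (Fin (m + 1)) (Fin (m + 1)) ℝ) (K : ℝ≥0∞) (a : (Fin (m + 1) → ℝ) → ℂ)
    (ha : Am2 m p s V K a) (F : (Fin m → ℝ) → ℂ) (hFc : Continuous F) (hF1 : ∀ x, ‖F x‖ ≤ 1)
    (L : ℝ) (hL : 1 ≤ L) (hFL : ∀ x y, ‖F x - F y‖ ≤ L * ‖x - y‖) :
    Am2 m p s V (ENNReal.ofReal (3 * L) * K) (fun ξ => a ξ * F (Fin.tail (V *ᵥ ξ))) := by
  obtain ⟨G, hG, hz, haG, hN, hR⟩ := ha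
  have hp0 : 0 < p := by linarith
  have hF1e : ∀ x, ‖F x‖ₑ ≤ 1 := by
    intro x
    rw [← ofReal_norm, ← ENNReal.ofReal_one]
    exact ENNReal.ofReal_le_ofReal (hF1 x)
  have hone : (1 : ℝ≥0∞) ≤ ENNReal.ofReal (3 * L) := by
    rw [← ENNReal.ofReal_one]
    exact ENNReal.ofReal_le_ofReal (by linarith)
  have hGm : ∀ v : Fin m → ℝ, Measurable fun u : ℝ => G (Fin.cons u v) := by
    intro v
    exact hG.comp (Pool.Agent.W771.MD.cons_meas.comp (measurable_id.prodMk measurable_const))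
  have hGj : Measurable fun w : (Fin m → ℝ) × ℝ => G (Fin.cons w.2 w.1) :=
    hG.comp (Pool.Agent.W771.MD.cons_meas.comp measurable_swap)
  refine ⟨fun x => G x * F (Fin.tail x), hG.mul (hFc.comp tail_cont).measurable, ?_, ?_, ?_, ?_⟩
  · intro ξ hξ
    show G (V *ᵥ ξ) * _ = 0
    rw [hz ξ hξ, zero_mul]
  · intro ξ
    show a ξ * _ = G (V *ᵥ ξ) * _
    rw [haG]
  · calc _ ≤ ∫⁻ v : Fin m → ℝ, (∫⁻ u : ℝ, ‖G (Fin.cons u v)‖ₑ ^ p) ^ (2 / p) := by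
          apply lintegral_mono
          intro v
          apply ENNReal.rpow_le_rpow _ (by positivity)
          apply lintegral_mono
          intro u
          apply ENNReal.rpow_le_rpow _ hp0.le
          rw [enorm_mul]
          calc _ ≤ ‖G (Fin.cons u v)‖ₑ * 1 := mul_le_mul' le_rfl (hF1e _)
            _ = _ := mul_one _
      _ ≤ K ^ 2 := hN
      _ ≤ _ := by
          apply pow_le_pow_left'
          calc K = 1 * K := (one_mul K).symm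
            _ ≤ _ := mul_le_mul' hone le_rfl
  · intro h
    set B : ℝ≥0∞ := ENNReal.ofReal (2 * L * ‖h‖ ^ s) with hB
    have hBt : B ≠ ∞ := ENNReal.ofReal_ne_top
    have hpt : ∀ (v : Fin m → ℝ) (u : ℝ),
        ‖G (Fin.cons u (v + h)) * F (Fin.tail (Fin.cons u (v + h) : Fin (m + 1) → ℝ)) -
          G (Fin.cons u v) * F (Fin.tail (Fin.cons u v : Fin (m + 1) → ℝ))‖ₑ ≤
        ‖G (Fin.cons u (v + h)) - G (Fin.cons u v)‖ₑ + ‖G (Fin.cons u v)‖ₑ * B := by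
      intro v u
      rw [tail_cons, tail_cons]
      have e : G (Fin.cons u (v + h)) * F (v + h) - G (Fin.cons u v) * F v =
          (G (Fin.cons u (v + h)) - G (Fin.cons u v)) * F (v + h) +
            G (Fin.cons u v) * (F (v + h) - F v) := by ring
      rw [e]
      refine (enorm_add_le _ _).trans ?_
      rw [enorm_mul, enorm_mul]
      refine add_le_add ?_ ?_
      · calc _ ≤ ‖G (Fin.cons u (v + h)) - G (Fin.cons u v)‖ₑ * 1 := mul_le_mul' le_rfl (hF1e _)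
          _ = _ := mul_one _
      · apply mul_le_mul' le_rfl
        apply fac_bound F hF1 L hL s hs0 hs1 _ _ ‖h‖ (norm_nonneg _)
        refine (hFL _ _).trans (le_of_eq ?_)
        rw [add_sub_cancel_left]
    set n1 : (Fin m → ℝ) → ℝ≥0∞ := fun v =>
      (∫⁻ u : ℝ, ‖G (Fin.cons u (v + h)) - G (Fin.cons u v)‖ₑ ^ p) ^ (1 / p) with hn1
    set n0 : (Fin m → ℝ) → ℝ≥0∞ := fun v => (∫⁻ u : ℝ, ‖G (Fin.cons u v)‖ₑ ^ p) ^ (1 / p) with hn0
    have hn1m : Measurable n1 := by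
      apply Measurable.pow_const
      have h1 : Measurable fun w : (Fin m → ℝ) × ℝ =>
          ‖G (Fin.cons w.2 (w.1 + h)) - G (Fin.cons w.2 w.1)‖ₑ ^ p :=
        ((hGj.comp ((measurable_fst.add_const h).prodMk measurable_snd)).sub hGj).enorm.pow_const p
      exact h1.lintegral_prod_right'
    have hn0m : Measurable n0 := by
      apply Measurable.pow_const
      exact (hGj.enorm.pow_const p).lintegral_prod_right'
    have hsq : ∀ X : ℝ≥0∞, X ^ (2 / p) = (X ^ (1 / p)) ^ (2 : ℝ) := by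
      intro X
      rw [← ENNReal.rpow_mul]
      congr 1
      ring
    have hin : ∀ v : Fin m → ℝ, (∫⁻ u : ℝ,
        ‖G (Fin.cons u (v + h)) * F (Fin.tail (Fin.cons u (v + h) : Fin (m + 1) → ℝ)) -
          G (Fin.cons u v) * F (Fin.tail (Fin.cons u v : Fin (m + 1) → ℝ))‖ₑ ^ p) ^ (2 / p) ≤
        (n1 v + n0 v * B) ^ (2 : ℝ) := by
      intro v
      have h2 := mink p (by linarith) (volume : Measure ℝ)
        (fun u => ‖G (Fin.cons u (v + h)) - G (Fin.cons u v)‖ₑ) (fun u => ‖G (Fin.cons u v)‖ₑ)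
        ((hGm (v + h)).sub (hGm v)).enorm (hGm v).enorm B hBt
      rw [ENNReal.rpow_ofNat]
      refine le_trans ?_ h2
      apply ENNReal.rpow_le_rpow _ (by positivity)
      apply lintegral_mono
      intro u
      exact ENNReal.rpow_le_rpow (hpt v u) hp0.le
    refine (lintegral_mono hin).trans ?_
    have h3 := mink 2 (by norm_num) (volume : Measure (Fin m → ℝ)) n1 n0 hn1m hn0m B hBt
    rw [div_self (two_ne_zero), ENNReal.rpow_one] at h3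
    refine h3.trans ?_
    apply pow_le_pow_left'
    have hsqr : ∀ X : ℝ≥0∞, (X ^ 2) ^ (1 / 2 : ℝ) = X := by
      intro X
      rw [← ENNReal.rpow_natCast, ← ENNReal.rpow_mul]
      norm_num
    have h4 : (∫⁻ v, n1 v ^ (2 : ℝ)) ^ (1 / 2 : ℝ) ≤ K * ENNReal.ofReal (‖h‖ ^ s) := by
      calc _ ≤ ((K * ENNReal.ofReal (‖h‖ ^ s)) ^ 2) ^ (1 / 2 : ℝ) := by
            apply ENNReal.rpow_le_rpow _ (by norm_num)
            refine le_trans (le_of_eq ?_) (hR h)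
            apply lintegral_congr
            intro v
            rw [hsq]
        _ = _ := hsqr _
    have h5 : (∫⁻ v, n0 v ^ (2 : ℝ)) ^ (1 / 2 : ℝ) ≤ K := by
      calc _ ≤ (K ^ 2) ^ (1 / 2 : ℝ) := by
            apply ENNReal.rpow_le_rpow _ (by norm_num)
            refine le_trans (le_of_eq ?_) hN
            apply lintegral_congr
            intro v
            rw [hsq]
        _ = _ := hsqr _
    have hhs : 0 ≤ ‖h‖ ^ s := by positivity
    have e10 : B = ENNReal.ofReal (2 * L) * ENNReal.ofReal (‖h‖ ^ s) := by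
      rw [hB, ENNReal.ofReal_mul (by positivity)]
    calc _ ≤ K * ENNReal.ofReal (‖h‖ ^ s) + K * B := add_le_add h4 (mul_le_mul' h5 le_rfl)
      _ = (1 + ENNReal.ofReal (2 * L)) * K * ENNReal.ofReal (‖h‖ ^ s) := by
          rw [e10]
          ring
      _ ≤ ENNReal.ofReal (3 * L) * K * ENNReal.ofReal (‖h‖ ^ s) := by
          gcongr
          rw [← ENNReal.ofReal_one, ← ENNReal.ofReal_add zero_le_one (by positivity)]
          apply ENNReal.ofReal_le_ofReal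
          linarith

/-- **smooth phases, one rough variable** -/
theorem smoothRough (m : ℕ) (hm : 0 < m) (q p s : ℝ) (hs : (m : ℝ) / ((m + 1) * q) < s)
    (hs1 : s ≤ 1) (hq : 2 * ((m : ℝ) + 2) / (m + 1) < q)
    (hp2 : 2 ≤ p) (hp : ((m : ℝ) + 1) * q < p * ((m + 1) * (q - 1) - 2)) :
    ∃ C : ℝ≥0, ∀ (k : ℕ) (M : ℝ), 0 ≤ M → ∀ σ : Fin m → Fin m, (∀ i, σ (σ i) = i) →
    ∀ φ : Fin m → ℝ × ℝ → ℝ, (∀ i, ContDiff ℝ (k + 1 : ℕ) (φ i)) →
    (∀ i, ∀ x : ℝ × ℝ, |x.1| ≤ m + 3 → |x.2| ≤ m + 3 → ‖iteratedFDeriv ℝ (k + 1) (φ i) x‖ ≤ M) →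
    ∀ V : Matrix (Fin (m + 1)) (Fin (m + 1)) ℝ, Vᵀ * V = 1 →
    ∀ G : (Fin (m + 1) → ℝ) → ℂ, Measurable G → (∀ ξ, ξ ∉ BA 1 (m + 1) → G (V *ᵥ ξ) = 0) →
    ∀ K : ℝ≥0∞, K ≠ ∞ →
    ∫⁻ v : Fin m → ℝ, (∫⁻ u : ℝ, ‖G (Fin.cons u v)‖ₑ ^ p) ^ (2 / p) ≤ K ^ 2 →
    (∀ h : Fin m → ℝ, ∫⁻ v : Fin m → ℝ, (∫⁻ u : ℝ,
      ‖G (Fin.cons u (v + h)) - G (Fin.cons u v)‖ₑ ^ p) ^ (2 / p) ≤
        (K * ENNReal.ofReal (‖h‖ ^ s)) ^ 2) →
    ∫⁻ y : (Fin (m + 1) → ℝ) × ℝ, ‖Pool.Agent.H728R3.SR.ext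
      (fun ξ => G (V *ᵥ ξ) * cexp (Complex.I * (phF σ φ (Fin.tail (V *ᵥ ξ)) : ℂ))) y‖ₑ ^ q ≤
        (C * cD k *
          ENNReal.ofReal ((1 + (M / k.factorial) ^ (1 / ((k : ℝ) + 1))) ^ (m + 1)) * K) ^ q := by
  obtain ⟨C, hC⟩ := roughI m hm q p s hs hs1 hq hp2 hp
  have hm0 : (0 : ℝ) < m := by exact_mod_cast hm
  have hs0 : 0 ≤ s := by
    have hq0 : 0 < q := lt_trans (by positivity) hq
    exact (lt_of_le_of_lt (by positivity) hs).le
  have hq2 : 2 < q := by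
    refine lt_trans ?_ hq
    rw [lt_div_iff₀ (by positivity)]
    linarith
  set c0 : ℝ := (5 * ((m : ℝ) + 1)) ^ m * (3 * (2 * m)) * 4 ^ (m + 1) with hc0
  refine ⟨C * c0.toNNReal, ?_⟩
  intro k M hM σ hσ φ hφ hφM V hV G hG hz K hK hN hR
  obtain ⟨N, hN1, hNM, hN2⟩ := choose_N k M hM
  have hmain := smooth_of_poly (n := m + 1) (l := m) hm q (by linarith) (m + 1)
    (by omega) 3 (Am2 m p s V) (by
      rintro K a ⟨G, hG, _, haG, _⟩
      have : a = fun ξ => G (V *ᵥ ξ) := funext haG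
      rw [this]
      exact hG.comp (Pool.Agent.Y247.QT.mulVec_cont V).measurable) C 1
      (fun ξ => Fin.tail (V *ᵥ ξ))
    (tail_cont.comp (Pool.Agent.Y247.QT.mulVec_cont V)) (by
      intro ξ hξ i
      refine (V_bound V hV ξ i.succ).trans ?_
      have h1 : ‖ξ‖ ≤ 1 := by
        rw [pi_norm_le_iff_of_nonneg zero_le_one]
        intro j
        rw [Real.norm_eq_abs, abs_le]
        exact ⟨hξ.1 j, hξ.2 j⟩
      push_cast
      nlinarith) (by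
      intro K a ha hK F hFc hF1 L hL hFL
      exact Am2_mul m p s hp2 hs0 hs1 V K a ha F hFc hF1 L hL hFL) (by
      rintro D σ hσ P hP K a ⟨G, hG, hz, haG, hN, hR⟩ hK
      rw [pow_one]
      simp only [haG]
      exact hC D σ hσ P hP V hV G hG hz K hK hN hR)
    N hN1 k M hM hNM σ hσ φ hφ (by
      intro i x hx1 hx2
      apply hφM i x
      · refine hx1.trans (le_of_eq ?_)
        push_cast
        ring
      · refine hx2.trans (le_of_eq ?_)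
        push_cast
        ring) K hK (fun ξ => G (V *ᵥ ξ)) ⟨G, hG, hz, fun _ => rfl, hN, hR⟩
  rw [pow_one] at hmain
  refine hmain.trans ?_
  apply ENNReal.rpow_le_rpow _ (by linarith)
  set X : ℝ := 1 + (M / k.factorial) ^ (1 / ((k : ℝ) + 1)) with hX
  have hX0 : 0 ≤ X := by positivity
  have hfin : (((5 * (m + 1) * N) ^ m : ℕ) : ℝ≥0∞) *
      ENNReal.ofReal (3 * (2 * (m : ℝ) * N)) ≤
      (c0.toNNReal : ℝ≥0∞) * ENNReal.ofReal (X ^ (m + 1)) := by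
    have e1 : (((5 * (m + 1) * N) ^ m : ℕ) : ℝ≥0∞) =
        ENNReal.ofReal (((5 * (m + 1) * N) ^ m : ℕ) : ℝ) := (ENNReal.ofReal_natCast _).symm
    have e2 : (c0.toNNReal : ℝ≥0∞) = ENNReal.ofReal c0 := rfl
    rw [e1, e2, ← ENNReal.ofReal_mul (by positivity), ← ENNReal.ofReal_mul (by positivity)]
    apply ENNReal.ofReal_le_ofReal
    push_cast
    have h1 : (N : ℝ) ^ (m + 1) ≤ (4 * X) ^ (m + 1) := by gcongr
    calc (5 * ((m : ℝ) + 1) * N) ^ m * (3 * (2 * m * N)) =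
        (5 * ((m : ℝ) + 1)) ^ m * (3 * (2 * m)) * (N : ℝ) ^ (m + 1) := by
          rw [mul_pow, pow_succ (N : ℝ) m]
          ring
      _ ≤ (5 * ((m : ℝ) + 1)) ^ m * (3 * (2 * m)) * (4 * X) ^ (m + 1) := by
          gcongr
      _ = _ := by
          rw [hc0, mul_pow]
          ring
  calc _ = ((((5 * (m + 1) * N) ^ m : ℕ) : ℝ≥0∞) *
        ENNReal.ofReal (3 * (2 * (m : ℝ) * N))) *
          (C * cD k * K) := by ring
    _ ≤ ((c0.toNNReal : ℝ≥0∞) * ENNReal.ofReal (X ^ (m + 1))) * (C * cD k * K) :=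
        mul_le_mul' hfin le_rfl
    _ = _ := by
        rw [ENNReal.coe_mul]
        ring

end Pool.Agent.Y183.PS
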